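import Pool.Agent.K9h1.EA.DLR

/-!
# Boundary conditions which magnetise the origin
-/

set_option autoImplicit false

namespace Pool.Agent.K9h1.EA

open Pool.H47EA Pool.Agent.Helper580.IsingLat

variable {d : ℕ}

lemma inj_aux {i0 i1 : Fin d} (hne : i0 ≠ i1) {n r : ℕ} (hn : 2 * r + 2 ≤ n) {u v : Site d}
    (hu : |u i0| ≤ r ∧ |u i1| ≤ r) (hv : |v i0| ≤ r + 1 ∧ |v i1| ≤ r + 1)
    (h1 : cst n (u i1) = cst n (v i1)) (h0 : cst n (u i0) = cst n (v i0))
    (hc : col i0 i1 u = col i0 i1 v) : u = v := by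
  have hn' : (2 : ℤ) * r + 2 ≤ n := by exact_mod_cast hn
  have e0 : u i0 = v i0 := by
    have a1 := abs_le.mp hu.1
    have a2 := abs_le.mp hv.1
    exact cst_inj h0 (by omega) (by omega)
  have e1 : u i1 = v i1 := by
    have a1 := abs_le.mp hu.2
    have a2 := abs_le.mp hv.2
    exact cst_inj h1 (by omega) (by omega)
  rw [col_eq hne u, col_eq hne v, hc, e0, e1]

variable {K : Coupling d} {i0 i1 : Fin d} {n r : ℕ} {Λ : Finset (Site d)}

/-- the embedding of the box in the torus -/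
noncomputable def io (n : ℕ) (i0 i1 : Fin d) (hr : ∀ u ∈ Λ, ∀ j, |u j| ≤ r) (u : Λ) :
    VV n (YF i0 i1 (r + 1)) :=
  (cst n (u.1 i1), cst n (u.1 i0), ⟨col i0 i1 u.1, col_mem fun j => (hr u.1 u.2 j).trans (by
    push_cast; omega)⟩)

lemma io_inj (hne : i0 ≠ i1) (hn : 2 * r + 2 ≤ n) (hr : ∀ u ∈ Λ, ∀ j, |u j| ≤ r) :
    Function.Injective (io n i0 i1 hr) := by
  intro u v h
  apply Subtype.ext
  have h1 := congrArg (fun w => w.1) h
  have h2 := congrArg (fun w => w.2.1) h
  have h3 := congrArg (fun w => w.2.2.1) h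
  have a0 := hr v.1 v.2 i0
  have a1 := hr v.1 v.2 i1
  exact inj_aux hne hn ⟨hr u.1 u.2 i0, hr u.1 u.2 i1⟩ ⟨by omega, by omega⟩ h1 h2 h3

lemma lift_glue (hne : i0 ≠ i1) (hn : 2 * r + 2 ≤ n) (hr : ∀ u ∈ Λ, ∀ j, |u j| ≤ r)
    (s : VV n (YF i0 i1 (r + 1)) → Bool) (η : Λ → Bool) {v : Site d}
    (hv : |v i0| ≤ r + 1 ∧ |v i1| ≤ r + 1) :
    glue Λ η (lift s) v = lift (Function.extend (io n i0 i1 hr) η s) v := by
  by_cases hvΛ : v ∈ Λ
  · rw [Basic.glue_mem _ _ hvΛ]
    rw [lift_of (Function.extend (io n i0 i1 hr) η s) (v := v)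
      (y := ⟨col i0 i1 v, col_mem fun j => (hr v hvΛ j).trans (by push_cast; omega)⟩) rfl rfl rfl]
    exact ((io_inj hne hn hr).extend_apply η s ⟨v, hvΛ⟩).symm
  · rw [Basic.glue_not_mem _ _ hvΛ]
    unfold lift
    by_cases h : col i0 i1 v ∈ YF i0 i1 (r + 1)
    · rw [dif_pos h, dif_pos h, Function.extend_apply']
      rintro ⟨u, hu⟩
      apply hvΛ
      have h1 := congrArg (fun w => w.1) hu
      have h2 := congrArg (fun w => w.2.1) hu
      have h3 := congrArg (fun w => w.2.2.1) hu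
      have := inj_aux hne hn ⟨hr u.1 u.2 i0, hr u.1 u.2 i1⟩ hv h1 h2 h3
      rw [← this]
      exact u.2
    · rw [dif_neg h, dif_neg h]

/-- the transverse couplings -/
noncomputable def AA (K : Coupling d) (i0 i1 : Fin d) (R : ℕ) (y y' : YF i0 i1 R) : ℝ :=
  Jc K y.1 y'.1

/-- the torus weight is a Gibbs weight in the box -/
lemma ratio (hK : Flat K i0 i1) (hn : 2 * r + 2 ≤ n) (hr : ∀ u ∈ Λ, ∀ j, |u j| ≤ r) (β : ℝ)
    (s : VV n (YF i0 i1 (r + 1)) → Bool) (η η' : Λ → Bool) :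
    HH n (hT (AA K i0 i1 (r + 1)) β) β (cur (Function.extend (io n i0 i1 hr) η s)) -
        β * ham K Λ (glue Λ η (lift s)) =
      HH n (hT (AA K i0 i1 (r + 1)) β) β (cur (Function.extend (io n i0 i1 hr) η' s)) -
        β * ham K Λ (glue Λ η' (lift s)) := by
  classical
  refine const_of_flips (fun η => HH n (hT (AA K i0 i1 (r + 1)) β) β
    (cur (Function.extend (io n i0 i1 hr) η s)) - β * ham K Λ (glue Λ η (lift s))) ?_ η η'
  intro η u
  have hinj := io_inj hK.ne hn hr
  show HH n (hT (AA K i0 i1 (r + 1)) β) β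
    (cur (Function.extend (io n i0 i1 hr) (Function.update η u (!η u)) s)) -
      β * ham K Λ (glue Λ (Function.update η u (!η u)) (lift s)) =
    HH n (hT (AA K i0 i1 (r + 1)) β) β (cur (Function.extend (io n i0 i1 hr) η s)) -
      β * ham K Λ (glue Λ η (lift s))
  rw [extend_update hinj, glue_update]
  set s' := Function.extend (io n i0 i1 hr) η s with hs'
  set τ := glue Λ η (lift s) with hτ
  have e1 : η u = s' (io n i0 i1 hr u) := (hinj.extend_apply η s u).symm
  have e2 : η u = τ u.1 := (Basic.glue_mem _ _ u.2).symm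
  have f1 := HH_flip (AA K i0 i1 (r + 1)) (fun y y' => Jc_comm K _ _) (fun y => Jc_self K _)
    (by omega : 1 ≤ n) β s' (io n i0 i1 hr u)
  have f2 := ham_flip K u.2 τ
  rw [← e1] at f1
  rw [← e2] at f2
  have f3 : ∑ v ∈ nbr u.1, Jc K u.1 v * sg (τ v) = ∑ v ∈ nbr u.1, Jc K u.1 v * sg (lift s' v) := by
    apply Finset.sum_congr rfl
    intro v hv
    rw [hτ, hs', lift_glue hK.ne hn hr s η]
    have hd : dist1 u.1 v = 1 := Basic.mem_nbr.mp hv
    have hj : ∀ j, (u.1 j - v j).natAbs ≤ 1 := by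
      intro j
      rw [← hd]
      unfold dist1
      exact Finset.single_le_sum (f := fun i => (u.1 i - v i).natAbs) (fun _ _ => Nat.zero_le _)
        (Finset.mem_univ j)
    have h1 := hr u.1 u.2 i0
    have h2 := hr u.1 u.2 i1
    have h3 := hj i0
    have h4 := hj i1
    rw [abs_le] at h1 h2 ⊢
    rw [abs_le]
    constructor <;> constructor <;> omega
  have hc : col i0 i1 u.1 ∈ YF i0 i1 (r + 1) := (io n i0 i1 hr u).2.2.2
  have f4 := field hK s' (u := u.1) (fun j => by
    have := hr u.1 u.2 j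
    push_cast
    omega) hc
  rw [f3, f4] at f2
  have f5 : HH n (hT (AA K i0 i1 (r + 1)) β) β (cur s') -
      HH n (hT (AA K i0 i1 (r + 1)) β) β (cur (Function.update s' (io n i0 i1 hr u) (!η u))) =
      β * (ham K Λ τ - ham K Λ (Function.update τ u.1 (!η u))) := by
    rw [f1, f2]
    unfold io AA
    simp only
    ring
  linarith

/-- currying -/
def curE (n : ℕ) (Y : Type) : (VV n Y → Bool) ≃ Cf n Y where
  toFun := cur
  invFun := fun σ v => σ v.1 v.2.1 v.2.2
  left_inv := fun _ => rfl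
  right_inv := fun _ => rfl

/-- **a magnetising boundary condition** -/
theorem box (hK : Flat K i0 i1) {β : ℝ} (hβ : 0 ≤ β) (hq : qq β ≤ pp ^ 2) (Λ : Finset (Site d))
    (h0 : (0 : Site d) ∈ Λ) :
    ∃ τ : Site d → Bool, 1 / 2 ≤ |gE β K Λ τ (fun σ => sg (σ 0))| := by
  classical
  obtain ⟨r, hr⟩ : ∃ r : ℕ, ∀ u ∈ Λ, ∀ j, |u j| ≤ r := by
    refine ⟨Λ.sup (fun u => Finset.univ.sup (fun j => (u j).natAbs)), fun u hu j => ?_⟩
    have h1 : (u j).natAbs ≤ Finset.univ.sup (fun j => (u j).natAbs) :=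
      Finset.le_sup (f := fun j => (u j).natAbs) (Finset.mem_univ j)
    have h2 : Finset.univ.sup (fun j => (u j).natAbs) ≤
        Λ.sup (fun u => Finset.univ.sup (fun j => (u j).natAbs)) :=
      Finset.le_sup (f := fun u : Site d => Finset.univ.sup (fun j => (u j).natAbs)) hu
    have h3 := h1.trans h2
    rw [← Int.natCast_natAbs]
    exact_mod_cast h3
  by_contra hcon
  push Not at hcon
  set n := 2 * r + 5 with hndef
  have hn : 2 * r + 2 ≤ n := by omega
  have heven : Even (n + 1) := ⟨r + 3, by omega⟩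
  have hne := hK.ne
  have hinj := io_inj (n := n) hne hn hr
  set ι := io n i0 i1 hr with hι
  set h : (YF i0 i1 (r + 1) → Bool) → ℝ := hT (AA K i0 i1 (r + 1)) β with hh
  let Wv : (VV n (YF i0 i1 (r + 1)) → Bool) → ℝ := fun s => W n h β (cur s)
  have hWpos : ∀ s, 0 < Wv s := fun s => W_pos h β _
  let y0 : YF i0 i1 (r + 1) := ⟨0, by rw [mem_YF]; simp; omega⟩
  let v0 : VV n (YF i0 i1 (r + 1)) := (cst n 0, cst n 0, y0)
  let vz : VV n (YF i0 i1 (r + 1)) := (cst n 0, cst n ((r : ℤ) + 1), y0)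
  have hv0 : ι ⟨0, h0⟩ = v0 := by
    rw [hι]
    unfold io
    simp only [v0, y0]
    refine Prod.ext rfl (Prod.ext rfl (Subtype.ext ?_))
    funext j
    simp [col]
  have hvz : ∀ u, ι u ≠ vz := by
    intro u hu
    have h2 : cst n (u.1 i0) = cst n ((r : ℤ) + 1) := congrArg (fun w => w.2.1) hu
    have h3 := abs_le.mp (hr u.1 u.2 i0)
    have hn' : (n : ℤ) = 2 * r + 5 := by rw [hndef]; push_cast; ring
    have := cst_inj h2 (by omega) (by omega)
    omega
  -- the sum over the torus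
  have hZ : ∑ s, Wv s = ZZ n h β := by
    unfold ZZ
    exact Fintype.sum_equiv (curE n _) _ _ (fun s => rfl)
  have hpe : ∑ s, (if s v0 ≠ s vz then Wv s else 0) ≤
      (((r + 1 : ℕ) : ℝ) * (1 / 16) ^ (r + 1 + 1) + 2 / 15) * ZZ n h β := by
    have h1 := peierls (n := n) heven h (hT_flip _ β) hβ hq y0 (r + 1) (r + 1) (by omega)
    have h2 : ∑ s, (if s v0 ≠ s vz then Wv s else 0) =
        ∑ σ : Cf n (YF i0 i1 (r + 1)),
          (if tt σ y0 (xx 0) ≠ tt σ y0 (xx (r + 1)) then W n h β σ else 0) := by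
      refine Fintype.sum_equiv (curE n _) _ _ (fun s => ?_)
      have e1 : tt (curE n _ s) y0 (xx 0) = s v0 := by
        simp [tt, xx, curE, cur, v0]
      have e2 : tt (curE n _ s) y0 (xx (r + 1)) = s vz := by
        simp [tt, xx, curE, cur, vz]
      rw [e1, e2]
      rfl
    rw [h2]
    exact h1
  -- the Gibbs property
  have hF : ∀ s, ∑ η : Λ → Bool, Wv (Function.extend ι η s) *
      (sg (Function.extend ι η s v0) * sg (Function.extend ι η s vz)) ≤
      (1 / 2) * ∑ η : Λ → Bool, Wv (Function.extend ι η s) := by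
    intro s
    let C : ℝ := Real.exp (HH n h β (cur (Function.extend ι (fun _ => true) s)) -
        β * ham K Λ (glue Λ (fun _ => true) (lift s)))
    have hC : 0 < C := Real.exp_pos _
    have hW : ∀ η : Λ → Bool, Wv (Function.extend ι η s) =
        C * Real.exp (β * ham K Λ (glue Λ η (lift s))) := by
      intro η
      show W n h β _ = _
      rw [W_eq]
      simp only [C]
      rw [← Real.exp_add]
      congr 1
      have := ratio hK hn hr β s η (fun _ => true)
      rw [← hh, ← hι] at this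
      linarith
    have hs0 : ∀ η : Λ → Bool, Function.extend ι η s v0 = glue Λ η (lift s) 0 := by
      intro η
      rw [← hv0, hinj.extend_apply, Basic.glue_mem _ _ h0]
    have hsz : ∀ η : Λ → Bool, Function.extend ι η s vz = s vz := by
      intro η
      apply Function.extend_apply'
      rintro ⟨u, hu⟩
      exact hvz u hu
    have hZp := Basic.Zp_pos β K Λ (lift s)
    have h1 : ∑ η : Λ → Bool, Wv (Function.extend ι η s) = C * Zp β K Λ (lift s) := by
      unfold Zp
      rw [Finset.mul_sum]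
      exact Finset.sum_congr rfl fun η _ => hW η
    have h2 : ∑ η : Λ → Bool, Wv (Function.extend ι η s) *
        (sg (Function.extend ι η s v0) * sg (Function.extend ι η s vz)) =
        C * sg (s vz) * (Zp β K Λ (lift s) * gE β K Λ (lift s) (fun σ => sg (σ 0))) := by
      unfold gE
      rw [mul_div_cancel₀ _ hZp.ne', Finset.mul_sum]
      apply Finset.sum_congr rfl
      intro η _
      rw [hW, hs0, hsz]
      ring
    rw [h1, h2]
    have h3 : sg (s vz) * gE β K Λ (lift s) (fun σ => sg (σ 0)) ≤ 1 / 2 := by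
      have h4 := hcon (lift s)
      have h5 : |sg (s vz) * gE β K Λ (lift s) (fun σ => sg (σ 0))| < 1 / 2 := by
        rw [abs_mul]
        have : |sg (s vz)| = 1 := by cases s vz <;> simp [sg]
        rw [this, one_mul]
        exact h4
      exact (abs_lt.mp h5).2.le
    calc C * sg (s vz) * (Zp β K Λ (lift s) * gE β K Λ (lift s) (fun σ => sg (σ 0))) =
        (C * Zp β K Λ (lift s)) * (sg (s vz) * gE β K Λ (lift s) (fun σ => sg (σ 0))) := by ring
      _ ≤ (C * Zp β K Λ (lift s)) * (1 / 2) :=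
        mul_le_mul_of_nonneg_left h3 (mul_pos hC hZp).le
      _ = _ := by ring
  have hG : ∑ s, Wv s * (sg (s v0) * sg (s vz)) ≤ (1 / 2) * ∑ s, Wv s := by
    have r1 := resample hinj (fun s => Wv s * (sg (s v0) * sg (s vz)))
    have r2 := resample hinj Wv
    have hcard : (0 : ℝ) < (Fintype.card (Λ → Bool) : ℝ) := by
      exact_mod_cast Fintype.card_pos
    have h3 : (Fintype.card (Λ → Bool) : ℝ) * ∑ s, Wv s * (sg (s v0) * sg (s vz)) ≤
        (Fintype.card (Λ → Bool) : ℝ) * ((1 / 2) * ∑ s, Wv s) := by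
      rw [← r1]
      calc _ ≤ ∑ s, (1 / 2) * ∑ η : Λ → Bool, Wv (Function.extend ι η s) :=
            Finset.sum_le_sum fun s _ => hF s
        _ = (1 / 2) * ∑ s, ∑ η : Λ → Bool, Wv (Function.extend ι η s) := by rw [Finset.mul_sum]
        _ = _ := by rw [r2]; ring
    exact le_of_mul_le_mul_left h3 hcard
  have hid : ∑ s, Wv s * (sg (s v0) * sg (s vz)) =
      ∑ s, Wv s - 2 * ∑ s, (if s v0 ≠ s vz then Wv s else 0) := by
    rw [Finset.mul_sum, ← Finset.sum_sub_distrib]
    apply Finset.sum_congr rfl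
    intro s _
    by_cases hs : s v0 = s vz
    · rw [if_neg (not_not.mpr hs), hs, sg_mul_self]; ring
    · rw [if_pos hs, sg_mul_ne hs]; ring
  have hnum : ((r + 1 : ℕ) : ℝ) * (1 / 16) ^ (r + 1 + 1) + 2 / 15 < 1 / 4 := by
    have h1 : ((r + 1 : ℕ) : ℝ) ≤ 16 ^ (r + 1) := by
      have : r + 1 < 16 ^ (r + 1) := Nat.lt_pow_self (by norm_num)
      exact_mod_cast this.le
    have h2 : ((r + 1 : ℕ) : ℝ) * (1 / 16) ^ (r + 1 + 1) ≤ 1 / 16 := by
      calc ((r + 1 : ℕ) : ℝ) * (1 / 16) ^ (r + 1 + 1) ≤ 16 ^ (r + 1) * (1 / 16) ^ (r + 1 + 1) :=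
            mul_le_mul_of_nonneg_right h1 (by positivity)
        _ = (16 * (1 / 16)) ^ (r + 1) * (1 / 16) := by rw [pow_succ (1 / 16 : ℝ) (r + 1), mul_pow]; ring
        _ = 1 / 16 := by norm_num
    linarith
  have hZpos := ZZ_pos (n := n) h β
  rw [hid, hZ] at hG
  nlinarith

end Pool.Agent.K9h1.EA
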