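import Pool.Agent.K9h1.EA.Limit

/-!
# Columnar couplings
-/

set_option autoImplicit false

namespace Pool.Agent.K9h1.EA

open Pool.H47EA Pool.Agent.Helper580.IsingLat

variable {d : ℕ}

lemma col_add {i0 i1 : Fin d} (x : Site d) (i : Fin d) (hi : i = i0 ∨ i = i1) :
    col i0 i1 (x + uv i) = col i0 i1 x := by
  funext j
  simp only [col, Pi.add_apply, uv]
  by_cases hj : j = i0 ∨ j = i1
  · rw [if_pos hj, if_pos hj]
  · rw [if_neg hj, if_neg hj]
    have : j ≠ i := by
      rintro rfl; exact hj hi
    simp [this]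

lemma adj_col {i0 i1 : Fin d} {x y : Site d} (h : (lat d).Adj x y) :
    col i0 i1 x = col i0 i1 y ∨ (lat d).Adj (col i0 i1 x) (col i0 i1 y) := by
  by_cases hc : col i0 i1 x = col i0 i1 y
  · exact Or.inl hc
  · right
    have h1 : dist1 x y = 1 := h
    show dist1 (col i0 i1 x) (col i0 i1 y) = 1
    have h2 : dist1 (col i0 i1 x) (col i0 i1 y) ≤ 1 := by
      rw [← h1]
      unfold dist1
      apply Finset.sum_le_sum
      intro j _
      unfold col
      by_cases hj : j = i0 ∨ j = i1
      · rw [if_pos hj, if_pos hj]; simp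
      · rw [if_neg hj, if_neg hj]
    have h3 : dist1 (col i0 i1 x) (col i0 i1 y) ≠ 0 := by
      intro h0
      apply hc
      unfold dist1 at h0
      rw [Finset.sum_eq_zero_iff] at h0
      funext j
      have := h0 j (Finset.mem_univ j)
      omega
    omega

/-- the values of the columnar couplings -/
noncomputable def cval (J : Coupling d) (i0 i1 : Fin d) (x y : Site d) : ℝ :=
  if col i0 i1 x = col i0 i1 y then 1 else Jc J (col i0 i1 x) (col i0 i1 y)

lemma cval_comm (J : Coupling d) (i0 i1 : Fin d) (x y : Site d) :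
    cval J i0 i1 x y = cval J i0 i1 y x := by
  unfold cval
  by_cases h : col i0 i1 x = col i0 i1 y
  · rw [if_pos h, if_pos h.symm]
  · rw [if_neg h, if_neg (Ne.symm h), Jc_comm]

/-- the couplings `J` of the transverse sublattice, copied along two directions -/
noncomputable def columnar (J : Coupling d) (i0 i1 : Fin d) : Coupling d := fun e =>
  Sym2.lift ⟨fun x y => decide (cval J i0 i1 x y = 1), fun x y => by
    show decide (cval J i0 i1 x y = 1) = decide (cval J i0 i1 y x = 1)
    rw [cval_comm]⟩ e.1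

lemma sg_decide {c : ℝ} (h : c = 1 ∨ c = -1) : sg (decide (c = 1)) = c := by
  rcases h with h | h
  · simp [h, sg]
  · rw [h]; simp only [sg]; norm_num

lemma Jc_columnar (J : Coupling d) {i0 i1 : Fin d} {x y : Site d} (h : (lat d).Adj x y) :
    Jc (columnar J i0 i1) x y = cval J i0 i1 x y := by
  have h1 : Jc (columnar J i0 i1) x y = sg (decide (cval J i0 i1 x y = 1)) := by
    rw [Jc, dif_pos h]
    rfl
  rw [h1]
  apply sg_decide
  unfold cval
  rcases adj_col (i0 := i0) (i1 := i1) h with h2 | h2
  · rw [if_pos h2]; exact Or.inl rfl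
  · by_cases h3 : col i0 i1 x = col i0 i1 y
    · rw [if_pos h3]; exact Or.inl rfl
    · rw [if_neg h3, Jc, dif_pos h2]
      generalize J _ = b
      cases b
      · right; simp [sg]
      · left; simp [sg]

lemma plaq_columnar (J : Coupling d) {i0 i1 : Fin d} (x : Site d) {i j : Fin d}
    (hi : i = i0 ∨ i = i1) : plaq (columnar J i0 i1) x i j = 1 := by
  unfold plaq
  have e : x + uv i + uv j = x + uv j + uv i := by abel
  have a1 := adj_uv x i
  have a2 := adj_uv (x + uv i) j
  have a3 : (lat d).Adj (x + uv i + uv j) (x + uv j) := by rw [e]; exact (adj_uv (x + uv j) i).symm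
  have a4 := (adj_uv x j).symm
  have c1 : cval J i0 i1 x (x + uv i) = 1 := by
    unfold cval; rw [if_pos (col_add x i hi).symm]
  have c3 : cval J i0 i1 (x + uv i + uv j) (x + uv j) = 1 := by
    unfold cval; rw [e, if_pos (col_add (x + uv j) i hi)]
  have c2 : cval J i0 i1 (x + uv i) (x + uv i + uv j) = cval J i0 i1 x (x + uv j) := by
    unfold cval
    rw [e, col_add x i hi, col_add (x + uv j) i hi]
  have c4 : cval J i0 i1 (x + uv j) x = cval J i0 i1 x (x + uv j) := cval_comm _ _ _ _ _
  rw [Jc_columnar J a1, Jc_columnar J a2, Jc_columnar J a3, Jc_columnar J a4, c1, c2, c3, c4]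
  have := Jc_uv_sq (columnar J i0 i1) x j
  rw [Jc_columnar J (adj_uv x j)] at this
  linarith

lemma columnar_eq (J : Coupling d) {i0 i1 : Fin d} {x y : Site d} (hx0 : x i0 = 0) (hx1 : x i1 = 0)
    (hy0 : y i0 = 0) (hy1 : y i1 = 0) : Jc (columnar J i0 i1) x y = Jc J x y := by
  by_cases h : (lat d).Adj x y
  · rw [Jc_columnar J h]
    have hc : ∀ z : Site d, z i0 = 0 → z i1 = 0 → col i0 i1 z = z := by
      intro z h0 h1
      funext j
      unfold col
      by_cases hj : j = i0 ∨ j = i1
      · rw [if_pos hj]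
        rcases hj with rfl | rfl
        · exact h0.symm
        · exact h1.symm
      · rw [if_neg hj]
    unfold cval
    rw [hc x hx0 hx1, hc y hy0 hy1, if_neg (h.ne)]
  · rw [Jc, dif_neg h, Jc, dif_neg h]

end Pool.Agent.K9h1.EA
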