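import Pool.Agent.Helper580.IsingCut

/-!
# Contours of a function on `ℤ²` that takes different values at two points of an axis
-/

set_option autoImplicit false

namespace Pool.Agent.K9h1.EA

open Finset Pool.Agent.Helper580.IsingCut Pool.Agent.Helper580.IsingLat

/-- edges of `ℤ²` -/
abbrev E2 : Type := (Fin 2 → ℤ) × Fin 2

/-- the edge is a disagreement of `t` -/
def bad (t : (Fin 2 → ℤ) → Bool) (e : E2) : Prop := t e.1 ≠ t (e.1 + uv e.2)

instance (t : (Fin 2 → ℤ) → Bool) (e : E2) : Decidable (bad t e) := by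
  unfold bad; infer_instance

/-- the point `(j, 0)` -/
def xx (j : ℕ) : Fin 2 → ℤ := fun i => if i = 0 then (j : ℤ) else 0

lemma xx_succ (j : ℕ) : xx (j + 1) = xx j + uv 0 := by
  funext i
  fin_cases i
  · simp [xx, uv]
  · simp [xx, uv]

/-! ### extent of connected sets -/

lemma pn_coord {u v : E2} (h : v ∈ pn u) (i : Fin 2) : v.1 i ≤ u.1 i + 1 ∧ u.1 i ≤ v.1 i + 1 := by
  have huv : ∀ j : Fin 2, (uv j : Fin 2 → ℤ) i = 0 ∨ (uv j : Fin 2 → ℤ) i = 1 := by
    intro j
    unfold uv
    by_cases hij : i = j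
    · subst hij; right; simp
    · left; simp [hij]
  unfold pn at h
  rw [Finset.mem_biUnion] at h
  obtain ⟨j, -, h⟩ := h
  have h1 := huv j
  have h2 := huv u.2
  have h3 : ∀ a b : Fin 2, (uv a : Fin 2 → ℤ) i = (Pi.single a 1 : Fin 2 → ℤ) i := fun _ _ => rfl
  rw [Finset.mem_union] at h
  unfold plaq at h
  simp only [Finset.mem_insert, Finset.mem_singleton] at h
  rcases h with (rfl | rfl | rfl | rfl) | (rfl | rfl | rfl | rfl) <;>
    simp only [Pi.add_apply, Pi.sub_apply] <;> omega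

lemma cc_extent {T : Finset E2} (hT : CC pn T) {u v : E2} (hu : u ∈ T) (hv : v ∈ T) (i : Fin 2) :
    v.1 i - u.1 i < T.card := by
  by_contra hcon
  push Not at hcon
  have hle : u.1 i ≤ v.1 i := by omega
  have h1 : ∀ c : ℤ, u.1 i ≤ c → c ≤ v.1 i → ∃ w ∈ T, w.1 i = c := by
    intro c hc1 hc2
    by_contra hno
    push Not at hno
    have hne : u.1 i ≠ c := hno u hu
    have := hT (T.filter (fun w => w.1 i < c)) (Finset.filter_subset _ _)
      ⟨u, Finset.mem_filter.mpr ⟨hu, by omega⟩⟩ (by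
        intro w hw w' hw' hww
        rw [Finset.mem_filter] at hw ⊢
        refine ⟨hw', ?_⟩
        have h2 := (pn_coord hww i).1
        have h3 := hno w' hw'
        omega)
    have h4 := this ▸ hv
    rw [Finset.mem_filter] at h4
    omega
  have h2 : Finset.Icc (u.1 i) (v.1 i) ⊆ T.image (fun w => w.1 i) := by
    intro c hc
    rw [Finset.mem_Icc] at hc
    obtain ⟨w, hw, hwc⟩ := h1 c hc.1 hc.2
    exact Finset.mem_image.mpr ⟨w, hw, hwc⟩
  have h3 := (Finset.card_le_card h2).trans Finset.card_image_le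
  rw [Int.card_Icc] at h3
  omega

/-! ### growing connected sets -/

variable {t : (Fin 2 → ℤ) → Bool}

lemma cc_insert {T : Finset E2} (hT : CC pn T) {u v : E2} (hu : u ∈ T) (h1 : v ∈ pn u)
    (h2 : u ∈ pn v) : CC pn (insert v T) := by
  intro T1 hT1 hne hcl
  by_cases hv : v ∈ T1
  · -- then `u ∈ T1`
    have hu1 : u ∈ T1 := hcl v hv u (Finset.mem_insert_of_mem hu) h2
    have h3 : T1 ∩ T = T := hT (T1 ∩ T) Finset.inter_subset_right
      ⟨u, Finset.mem_inter.mpr ⟨hu1, hu⟩⟩ (by
        intro w hw w' hw' hww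
        rw [Finset.mem_inter] at hw ⊢
        exact ⟨hcl w hw.1 w' (Finset.mem_insert_of_mem hw') hww, hw'⟩)
    apply Finset.Subset.antisymm hT1
    intro w hw
    rcases Finset.mem_insert.mp hw with rfl | hw
    · exact hv
    · rw [← h3] at hw
      exact (Finset.mem_inter.mp hw).1
  · have hsub : T1 ⊆ T := by
      intro w hw
      rcases Finset.mem_insert.mp (hT1 hw) with rfl | h
      · exact absurd hw hv
      · exact h
    have h3 : T1 = T := hT T1 hsub hne (fun w hw w' hw' hww =>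
      hcl w hw w' (Finset.mem_insert_of_mem hw') hww)
    exfalso
    apply hv
    rw [h3] at hcl ⊢
    exact hcl u hu v (Finset.mem_insert_self _ _) h1

lemma pn_symm {u v : E2} (h : v ∈ pn u) : u ∈ pn v := by
  have key : ∀ (z : Fin 2 → ℤ) (i j : Fin 2), u ∈ plaq z i j → v ∈ plaq z i j → u ∈ pn v :=
    fun z i j h1 h2 => mem_pn_of_plaq h2 h1
  unfold pn at h
  rw [Finset.mem_biUnion] at h
  obtain ⟨j, -, h⟩ := h
  rcases Finset.mem_union.mp h with h | h
  · exact key u.1 u.2 j (by unfold plaq; simp) h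
  · refine key (u.1 - uv j) u.2 j ?_ h
    unfold plaq
    simp

/-- a connected set of disagreements -/
def IsC (t : (Fin 2 → ℤ) → Bool) (e0 : E2) (T : Finset E2) : Prop :=
  CC pn T ∧ e0 ∈ T ∧ ∀ e ∈ T, bad t e

/-- closed under neighbouring disagreements -/
def IsFull (t : (Fin 2 → ℤ) → Bool) (T : Finset E2) : Prop :=
  ∀ u ∈ T, ∀ v ∈ pn u, bad t v → v ∈ T

lemma dich {e0 : E2} (h0 : bad t e0) (m : ℕ) :
    (∃ T, IsC t e0 T ∧ T.card = m + 1) ∨ (∃ T, IsC t e0 T ∧ IsFull t T ∧ T.card ≤ m) := by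
  induction m with
  | zero =>
    left
    refine ⟨{e0}, ⟨?_, Finset.mem_singleton_self _, ?_⟩, Finset.card_singleton _⟩
    · intro T1 hT1 hne _
      exact (Finset.Nonempty.subset_singleton_iff hne).mp hT1
    · intro e he
      rw [Finset.mem_singleton] at he
      rw [he]; exact h0
  | succ m ih =>
    rcases ih with ⟨T, hT, hc⟩ | ⟨T, hT, hf, hc⟩
    · by_cases hf : IsFull t T
      · right
        exact ⟨T, hT, hf, hc.le⟩
      · left
        unfold IsFull at hf
        push Not at hf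
        obtain ⟨u, hu, v, hv, hbv, hvT⟩ := hf
        refine ⟨insert v T, ⟨cc_insert hT.1 hu hv (pn_symm hv), Finset.mem_insert_of_mem hT.2.1, ?_⟩,
          ?_⟩
        · intro e he
          rcases Finset.mem_insert.mp he with rfl | he
          · exact hbv
          · exact hT.2.2 e he
        · rw [Finset.card_insert_of_notMem hvT, hc]
    · right
      exact ⟨T, hT, hf, by omega⟩

/-! ### full connected sets are closed -/

/-- sign mod 2 -/
def bz (c : Bool) : ZMod 2 := if c then 1 else 0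

lemma bz_ne {a b : Bool} (h : a ≠ b) : bz a + bz b = 1 := by
  revert h; cases a <;> cases b <;> simp [bz]

lemma bz_self (a : Bool) : bz a + bz a = 0 := by
  cases a <;> simp [bz]; decide

lemma bad_val (t : (Fin 2 → ℤ) → Bool) (e : E2) :
    (if bad t e then (1 : ZMod 2) else 0) = bz (t e.1) + bz (t (e.1 + uv e.2)) := by
  by_cases h : bad t e
  · rw [if_pos h]; exact (bz_ne h).symm
  · rw [if_neg h]
    have : t e.1 = t (e.1 + uv e.2) := by
      by_contra h2; exact h h2
    rw [this, bz_self]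

lemma closed_of_full {T : Finset E2} (hb : ∀ e ∈ T, bad t e) (hf : IsFull t T) : Closed T := by
  intro z i j _
  have hc := bad_val t
  have m1 : (z, i) ∈ plaq z i j := by simp [plaq]
  have m2 : (z + uv i, j) ∈ plaq z i j := by simp [plaq]
  have m3 : (z + uv j, i) ∈ plaq z i j := by simp [plaq]
  have m4 : (z, j) ∈ plaq z i j := by simp [plaq]
  by_cases hex : ∃ u ∈ plaq z i j, u ∈ T
  · obtain ⟨u, hu, huT⟩ := hex
    have heq : ∀ v ∈ plaq z i j, om T v = (if bad t v then (1 : ZMod 2) else 0) := by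
      intro v hv
      unfold om
      by_cases hvF : bad t v
      · rw [if_pos hvF, if_pos (hf u huT v (mem_pn_of_plaq hu hv) hvF)]
      · rw [if_neg hvF, if_neg (fun h => hvF (hb _ h))]
    rw [heq _ m1, heq _ m2, heq _ m3, heq _ m4, hc, hc, hc, hc]
    simp only
    have e1 : z + uv j + uv i = z + uv i + uv j := by abel
    rw [e1]
    have h2 : ∀ a : ZMod 2, a + a = 0 := by decide
    generalize bz (t z) = a
    generalize bz (t (z + uv i)) = b'
    generalize bz (t (z + uv i + uv j)) = c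
    generalize bz (t (z + uv j)) = e
    have : a + b' + (b' + c) + (e + c) + (a + e) = (a + a) + (b' + b') + (c + c) + (e + e) := by ring
    rw [this]; simp only [h2]
  · push Not at hex
    have h0 : ∀ v ∈ plaq z i j, om T v = 0 := fun v hv => by
      unfold om; rw [if_neg (hex v hv)]
    rw [h0 _ m1, h0 _ m2, h0 _ m3, h0 _ m4]; simp

lemma full_eq {T T' : Finset E2} (hT : CC pn T) (hb : ∀ e ∈ T, bad t e) (hT' : CC pn T')
    (hb' : ∀ e ∈ T', bad t e) (hf : IsFull t T) (hf' : IsFull t T') {e : E2} (he : e ∈ T)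
    (he' : e ∈ T') : T = T' := by
  have h1 : T ∩ T' = T := hT (T ∩ T') Finset.inter_subset_left
    ⟨e, Finset.mem_inter.mpr ⟨he, he'⟩⟩ (by
      intro u hu v hv huv
      rw [Finset.mem_inter] at hu ⊢
      exact ⟨hv, hf' u hu.2 v huv (hb v hv)⟩)
  have h2 : T ∩ T' = T' := hT' (T ∩ T') Finset.inter_subset_right
    ⟨e, Finset.mem_inter.mpr ⟨he, he'⟩⟩ (by
      intro u hu v hv huv
      rw [Finset.mem_inter] at hu ⊢
      exact ⟨hf u hu.1 v huv (hb' v hv), hv⟩)
  rw [← h1, h2]

/-! ### a contour around a point crosses the axis near the point -/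

lemma exists_bdd (T : Finset E2) : ∃ n : ℕ, Bdd n T := by
  refine ⟨∑ e ∈ T, ∑ i, (e.1 i).natAbs, ?_⟩
  intro e he
  refine ⟨e.1, ?_, Or.inl rfl⟩
  rw [mem_cube]
  intro i
  have h1 : (e.1 i).natAbs ≤ ∑ e ∈ T, ∑ i, (e.1 i).natAbs :=
    (Finset.single_le_sum (f := fun i => (e.1 i).natAbs) (fun _ _ => Nat.zero_le _)
      (Finset.mem_univ i)).trans
      (Finset.single_le_sum (f := fun e : E2 => ∑ i, (e.1 i).natAbs) (fun _ _ => Nat.zero_le _) he)
  omega

lemma up_edge {T : Finset E2} (hcl : Closed T) {x : Fin 2 → ℤ} (hx : pot 0 T x ≠ 0) :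
    ∃ e ∈ T, e.1 0 = x 0 ∧ e.2 = 1 := by
  obtain ⟨n, hb⟩ := exists_bdd T
  by_contra hno
  push Not at hno
  have h1 : ∀ m : ℕ, pot 0 T (x + (m : ℤ) • uv 1) = pot 0 T x := by
    intro m
    induction m with
    | zero => simp
    | succ m ih =>
      rw [← ih]
      have h2 := pot_step 0 hb hcl 1 (x + (m : ℤ) • uv 1)
      have h3 : om T (x + (m : ℤ) • uv 1, 1) = 0 := by
        unfold om
        rw [if_neg]
        intro h
        refine hno _ h ?_ rfl
        simp [uv]
      rw [h3, add_zero] at h2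
      rw [h2]
      congr 1
      push_cast
      rw [add_smul, one_smul, add_assoc]
  have h4 := h1 (n + 1 + (x 1).natAbs)
  rw [pot_zero_of_side 0 hb (j := 1) (by decide)] at h4
  · exact hx h4.symm
  · intro h
    have h5 := h.2
    change x 1 + (((n + 1 + (x 1).natAbs : ℕ) : ℤ)) * (Pi.single (1 : Fin 2) (1 : ℤ) :
      Fin 2 → ℤ) 1 ≤ n at h5
    rw [Pi.single_eq_same, mul_one] at h5
    push_cast at h5
    have h6 := neg_abs_le (x 1)
    omega

lemma near_axis {T : Finset E2} (hcl : Closed T) {c : ℕ} (hc : pot 0 T (xx c) ≠ 0) :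
    ∃ a, a < T.card ∧ (xx (c + a), (0 : Fin 2)) ∈ T := by
  -- some edge of the axis to the right of `c`
  have hex : ∃ a : ℕ, (xx (c + a), (0 : Fin 2)) ∈ T := by
    unfold pot at hc
    have hne : (T.filter (fun e => e.2 = 0 ∧ (∀ j, j ≠ 0 → e.1 j = xx c j) ∧
        xx c 0 ≤ e.1 0)).Nonempty := by
      by_contra h
      rw [Finset.not_nonempty_iff_eq_empty] at h
      rw [h] at hc
      simp at hc
    obtain ⟨e, he⟩ := hne
    rw [Finset.mem_filter] at he
    obtain ⟨h1, h2, h3, h4⟩ := he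
    refine ⟨(e.1 0 - c).toNat, ?_⟩
    have h5 : xx c 0 = c := by simp [xx]
    rw [h5] at h4
    have h6 : e = (xx (c + (e.1 0 - c).toNat), (0 : Fin 2)) := by
      apply Prod.ext
      · funext i
        fin_cases i
        · show e.1 0 = xx (c + (e.1 0 - c).toNat) 0
          simp only [xx, if_true]
          push_cast
          rw [Int.toNat_of_nonneg (by omega)]
          ring
        · show e.1 1 = xx (c + (e.1 0 - c).toNat) 1
          rw [h3 1 (by decide)]
          simp [xx]
      · exact h2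
    rw [← h6]; exact h1
  classical
  let a := Nat.find hex
  have ha : (xx (c + a), (0 : Fin 2)) ∈ T := Nat.find_spec hex
  have hmin : ∀ i < a, (xx (c + i), (0 : Fin 2)) ∉ T := fun i hi => Nat.find_min hex hi
  have hpot : ∀ i ≤ a, pot 0 T (xx (c + i)) ≠ 0 := by
    intro i
    induction i with
    | zero => intro _; exact hc
    | succ i ih =>
      intro hi
      have h1 := ih (by omega)
      have h2 := pot_step0 0 T (xx (c + i))
      have h3 : om T (xx (c + i), 0) = 0 := by
        unfold om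
        rw [if_neg (hmin i (by omega))]
      rw [h3, add_zero, ← xx_succ] at h2
      rw [← add_assoc, ← h2]
      exact h1
  refine ⟨a, ?_, ha⟩
  have h1 : (Finset.range (a + 1)).image (fun i : ℕ => ((c + i : ℕ) : ℤ)) ⊆
      T.image (fun e => e.1 0) := by
    intro z hz
    rw [Finset.mem_image] at hz ⊢
    obtain ⟨i, hi, rfl⟩ := hz
    rw [Finset.mem_range] at hi
    obtain ⟨e, he, h2, -⟩ := up_edge hcl (hpot i (by omega))
    refine ⟨e, he, ?_⟩
    rw [h2]; simp [xx]
  have h2 := (Finset.card_le_card h1).trans Finset.card_image_le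
  rw [Finset.card_image_of_injective _ (by
    intro i j hij
    simp only at hij
    omega), Finset.card_range] at h2
  omega

/-! ### the main statement -/

lemma sum_om (T : Finset E2) (k : ℕ) :
    ∑ j ∈ Finset.range k, om T (xx j, 0) = pot 0 T (xx 0) + pot 0 T (xx k) := by
  have h2 : ∀ a : ZMod 2, a + a = 0 := by decide
  induction k with
  | zero => simp [h2]
  | succ k ih =>
    rw [Finset.sum_range_succ, ih]
    have h1 := pot_step0 0 T (xx k)
    rw [← xx_succ] at h1
    rw [h1]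
    have : pot 0 T (xx 0) + (pot 0 T (xx (k + 1)) + om T (xx k, 0)) + om T (xx k, 0) =
        pot 0 T (xx 0) + pot 0 T (xx (k + 1)) + (om T (xx k, 0) + om T (xx k, 0)) := by ring
    rw [this, h2, add_zero]

lemma sum_bad (k : ℕ) (hk : t (xx 0) ≠ t (xx k)) :
    ∑ j ∈ Finset.range k, (if bad t (xx j, 0) then (1 : ZMod 2) else 0) = 1 := by
  have h2 : ∀ a : ZMod 2, a + a = 0 := by decide
  have key : ∀ k : ℕ, ∑ j ∈ Finset.range k, (if bad t (xx j, 0) then (1 : ZMod 2) else 0) =
      bz (t (xx 0)) + bz (t (xx k)) := by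
    intro k
    induction k with
    | zero => simp [h2]
    | succ k ih =>
      rw [Finset.sum_range_succ, ih]
      have h1 : (if bad t (xx k, 0) then (1 : ZMod 2) else 0) =
          bz (t (xx k)) + bz (t (xx (k + 1))) := by
        rw [bad_val, xx_succ]
      rw [h1]
      have : bz (t (xx 0)) + bz (t (xx k)) + (bz (t (xx k)) + bz (t (xx (k + 1)))) =
        bz (t (xx 0)) + bz (t (xx (k + 1))) + (bz (t (xx k)) + bz (t (xx k))) := by ring
      rw [this, h2, add_zero]
  rw [key]
  exact bz_ne hk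

/-- **contours** -/
theorem contour {k : ℕ} (hk : t (xx 0) ≠ t (xx k)) (m : ℕ) :
    (∃ j < k, ∃ T, IsC t (xx j, 0) T ∧ T.card = m + 1) ∨
    (∃ c, (c = 0 ∨ c = k) ∧ ∃ a T, IsC t (xx (c + a), 0) T ∧ a < T.card ∧ T.card ≤ m) := by
  classical
  by_cases hlong : ∃ j < k, ∃ T, IsC t (xx j, 0) T ∧ T.card = m + 1
  · exact Or.inl hlong
  right
  push Not at hlong
  let Jb := (Finset.range k).filter (fun j => bad t (xx j, 0))
  have hcomp : ∀ j ∈ Jb, ∃ T, IsC t (xx j, 0) T ∧ IsFull t T ∧ T.card ≤ m := by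
    intro j hj
    rw [Finset.mem_filter, Finset.mem_range] at hj
    rcases dich hj.2 m with ⟨T, h1, h2⟩ | h
    · exact absurd h2 (hlong j hj.1 T h1)
    · exact h
  choose! C hC using hcomp
  let 𝒯 := Jb.image C
  have h𝒯 : ∀ T ∈ 𝒯, CC pn T ∧ (∀ e ∈ T, bad t e) ∧ IsFull t T ∧ T.card ≤ m := by
    intro T hT
    obtain ⟨j, hj, rfl⟩ := Finset.mem_image.mp hT
    have := hC j hj
    exact ⟨this.1.1, this.1.2.2, this.2.1, this.2.2⟩
  -- each bad edge of the segment lies in exactly one member of `𝒯`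
  have hone : ∀ j ∈ Finset.range k, (if bad t (xx j, 0) then (1 : ZMod 2) else 0) =
      ∑ T ∈ 𝒯, om T (xx j, 0) := by
    intro j hj
    by_cases hb : bad t (xx j, 0)
    · have hjb : j ∈ Jb := Finset.mem_filter.mpr ⟨hj, hb⟩
      rw [if_pos hb, Finset.sum_eq_single (C j)]
      · unfold om
        rw [if_pos (hC j hjb).1.2.1]
      · intro T hT hne
        unfold om
        rw [if_neg]
        intro hmem
        apply hne
        have h1 := h𝒯 T hT
        exact full_eq h1.1 h1.2.1 (hC j hjb).1.1 (hC j hjb).1.2.2 h1.2.2.1 (hC j hjb).2.1 hmem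
          (hC j hjb).1.2.1
      · intro h
        exact absurd (Finset.mem_image_of_mem _ hjb) h
    · rw [if_neg hb]
      symm
      apply Finset.sum_eq_zero
      intro T hT
      unfold om
      rw [if_neg]
      intro h
      exact hb ((h𝒯 T hT).2.1 _ h)
  have h1 := sum_bad k hk
  rw [Finset.sum_congr rfl hone, Finset.sum_comm] at h1
  simp only [sum_om] at h1
  obtain ⟨T, hT, hne⟩ : ∃ T ∈ 𝒯, pot 0 T (xx 0) + pot 0 T (xx k) ≠ 0 := by
    by_contra hno
    push Not at hno
    rw [Finset.sum_eq_zero hno] at h1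
    exact absurd h1 (by decide)
  obtain ⟨hT1, hT2, hT3, hT4⟩ := h𝒯 T hT
  have hcl := closed_of_full hT2 hT3
  by_cases h0 : pot 0 T (xx 0) = 0
  · have hk0 : pot 0 T (xx k) ≠ 0 := by
      intro h; apply hne; rw [h0, h, add_zero]
    obtain ⟨a, ha, haT⟩ := near_axis hcl hk0
    exact ⟨k, Or.inr rfl, a, T, ⟨hT1, haT, hT2⟩, ha, hT4⟩
  · obtain ⟨a, ha, haT⟩ := near_axis hcl h0
    exact ⟨0, Or.inl rfl, a, T, ⟨hT1, haT, hT2⟩, ha, hT4⟩

end Pool.Agent.K9h1.EA
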