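import Pool.Agent.K9h1.EA.TorusQ

/-!
# From the torus to finite boxes of the lattice
-/

set_option autoImplicit false

namespace Pool.Agent.K9h1.EA

open Pool.H47EA Pool.Agent.Helper580.IsingLat

variable {d : ℕ}

/-- couplings which equal one along two directions and do not change along them -/
structure Flat (K : Coupling d) (i0 i1 : Fin d) : Prop where
  ne : i0 ≠ i1
  one0 : ∀ x, Jc K x (x + uv i0) = 1
  one1 : ∀ x, Jc K x (x + uv i1) = 1
  tr0 : ∀ x y, Jc K (x + uv i0) (y + uv i0) = Jc K x y
  tr1 : ∀ x y, Jc K (x + uv i1) (y + uv i1) = Jc K x y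

lemma tr_zsmul {K : Coupling d} {i : Fin d} (h : ∀ x y, Jc K (x + uv i) (y + uv i) = Jc K x y)
    (k : ℤ) : ∀ x y, Jc K (x + k • uv i) (y + k • uv i) = Jc K x y := by
  induction k using Int.induction_on with
  | zero => intro x y; simp
  | succ k ih =>
    intro x y
    have e : ∀ z : Site d, z + ((k : ℤ) + 1) • uv i = (z + uv i) + (k : ℤ) • uv i := by
      intro z; rw [add_smul, one_smul]; abel
    rw [e, e, ih, h]
  | pred k ih =>
    intro x y
    have e : ∀ z : Site d, z + (-(k : ℤ) - 1) • uv i + uv i = z + (-(k : ℤ)) • uv i := by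
      intro z; rw [sub_smul, one_smul]; abel
    rw [← h, e, e, ih]

/-- forget the two coordinates -/
def col (i0 i1 : Fin d) (u : Site d) : Site d := fun j => if j = i0 ∨ j = i1 then 0 else u j

lemma col_eq {i0 i1 : Fin d} (h : i0 ≠ i1) (u : Site d) :
    u = col i0 i1 u + u i0 • uv i0 + u i1 • uv i1 := by
  funext j
  simp only [Pi.add_apply, Pi.smul_apply, col, uv]
  by_cases h0 : j = i0
  · subst h0; simp [h]
  · by_cases h1 : j = i1
    · subst h1; simp [h0]
    · simp [h0, h1]

lemma Jc_col {K : Coupling d} {i0 i1 : Fin d} (hK : Flat K i0 i1) (u w : Site d) :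
    Jc K (col i0 i1 u) (col i0 i1 u + w) = Jc K u (u + w) := by
  have h1 : u + w = (col i0 i1 u + w) + u i0 • uv i0 + u i1 • uv i1 := by
    nth_rewrite 1 [col_eq hK.ne u]
    abel
  rw [h1]
  nth_rewrite 3 [col_eq hK.ne u]
  rw [tr_zsmul hK.tr1, tr_zsmul hK.tr0]

/-- the transverse box -/
noncomputable def YF (i0 i1 : Fin d) (R : ℕ) : Finset (Site d) :=
  (Finset.Icc (fun _ => -(R : ℤ)) (fun _ => (R : ℤ))).filter (fun y => y i0 = 0 ∧ y i1 = 0)

lemma mem_YF {i0 i1 : Fin d} {R : ℕ} {y : Site d} :
    y ∈ YF i0 i1 R ↔ (∀ j, |y j| ≤ R) ∧ y i0 = 0 ∧ y i1 = 0 := by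
  unfold YF
  rw [Finset.mem_filter, Finset.mem_Icc, Pi.le_def, Pi.le_def, ← forall_and]
  simp only [abs_le]

lemma col_mem {i0 i1 : Fin d} {R : ℕ} {u : Site d} (hu : ∀ j, |u j| ≤ R) :
    col i0 i1 u ∈ YF i0 i1 R := by
  rw [mem_YF]
  refine ⟨fun j => ?_, by simp [col], by simp [col]⟩
  unfold col
  by_cases h : j = i0 ∨ j = i1
  · rw [if_pos h]; simp
  · rw [if_neg h]; exact hu j

open Classical in
/-- the configuration on the lattice defined by a configuration on the torus -/
noncomputable def lift {n R : ℕ} {i0 i1 : Fin d} (s : VV n (YF i0 i1 R) → Bool) (v : Site d) :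
    Bool :=
  if h : col i0 i1 v ∈ YF i0 i1 R then s (cst n (v i1), cst n (v i0), ⟨col i0 i1 v, h⟩) else true

lemma lift_of {n R : ℕ} {i0 i1 : Fin d} (s : VV n (YF i0 i1 R) → Bool) {v : Site d}
    {b a : Fin (n + 1)} {y : YF i0 i1 R} (hy : y.1 = col i0 i1 v) (hb : cst n (v i1) = b)
    (ha : cst n (v i0) = a) : lift s v = s (b, a, y) := by
  have h : col i0 i1 v ∈ YF i0 i1 R := by rw [← hy]; exact y.2
  unfold lift
  rw [dif_pos h, hb, ha]
  congr 3
  exact Subtype.ext hy.symm

lemma Jc_self (K : Coupling d) (x : Site d) : Jc K x x = 0 := by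
  unfold Jc
  rw [dif_neg]
  exact (lat d).loopless.irrefl x

lemma Jc_eq_zero (K : Coupling d) {x y : Site d} (h : y ∉ nbr x) : Jc K x y = 0 := by
  unfold Jc
  rw [dif_neg]
  intro h'
  exact h (Basic.mem_nbr.mpr h')

lemma cst_pred {n : ℕ} (z : ℤ) : cst n (z - 1) = cst n z - 1 := by
  rw [eq_sub_iff_add_eq, ← cst_succ, sub_add_cancel]

/-- the local field on the lattice is the local field on the torus -/
lemma field {K : Coupling d} {i0 i1 : Fin d} (hK : Flat K i0 i1) {n R : ℕ}
    (s : VV n (YF i0 i1 R) → Bool) {u : Site d} (hu : ∀ j, |u j| + 1 ≤ R)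
    (hc : col i0 i1 u ∈ YF i0 i1 R) :
    ∑ v ∈ nbr u, Jc K u v * sg (lift s v) =
      (∑ y : YF i0 i1 R, Jc K (col i0 i1 u) y.1 * sg (s (cst n (u i1), cst n (u i0), y))) +
      (sg (s (cst n (u i1), cst n (u i0) + 1, ⟨col i0 i1 u, hc⟩)) +
       sg (s (cst n (u i1), cst n (u i0) - 1, ⟨col i0 i1 u, hc⟩)) +
       sg (s (cst n (u i1) + 1, cst n (u i0), ⟨col i0 i1 u, hc⟩)) +
       sg (s (cst n (u i1) - 1, cst n (u i0), ⟨col i0 i1 u, hc⟩))) := by
  classical
  have hne := hK.ne
  set c := col i0 i1 u with hcdef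
  let B : Site d → ℝ := fun y => if h : y ∈ YF i0 i1 R then
    Jc K c y * sg (s (cst n (u i1), cst n (u i0), ⟨y, h⟩)) else 0
  have hB : ∑ y : YF i0 i1 R, Jc K c y.1 * sg (s (cst n (u i1), cst n (u i0), y)) =
      ∑ i, (B (c + uv i) + B (c - uv i)) := by
    have e1 : ∑ y : YF i0 i1 R, Jc K c y.1 * sg (s (cst n (u i1), cst n (u i0), y)) =
        ∑ y : YF i0 i1 R, B y.1 := by
      apply Finset.sum_congr rfl
      intro y _
      simp only [B]
      rw [dif_pos y.2]
    rw [e1, Finset.sum_coe_sort (YF i0 i1 R) B, ← sum_nbr c B]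
    have e2 : ∑ y ∈ YF i0 i1 R ∩ nbr c, B y = ∑ y ∈ YF i0 i1 R, B y := by
      apply Finset.sum_subset Finset.inter_subset_left
      intro y hy hy'
      simp only [B]
      rw [dif_pos hy, Jc_eq_zero K (fun h => hy' (Finset.mem_inter.mpr ⟨hy, h⟩)), zero_mul]
    have e3 : ∑ y ∈ YF i0 i1 R ∩ nbr c, B y = ∑ y ∈ nbr c, B y := by
      apply Finset.sum_subset Finset.inter_subset_right
      intro y hy hy'
      simp only [B]
      rw [dif_neg (fun h => hy' (Finset.mem_inter.mpr ⟨h, hy⟩))]
    rw [← e2, e3]
  rw [hB, sum_nbr u]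
  set A : Fin d → ℝ := fun i => Jc K u (u + uv i) * sg (lift s (u + uv i)) +
    Jc K u (u - uv i) * sg (lift s (u - uv i)) with hA
  have hc0 : c i0 = 0 := by rw [hcdef]; simp [col]
  have hc1 : c i1 = 0 := by rw [hcdef]; simp [col]
  have hAB : ∀ i, A i = (B (c + uv i) + B (c - uv i)) + (if i = i0 then A i0 else 0) +
      (if i = i1 then A i1 else 0) := by
    intro i
    by_cases h0 : i = i0
    · subst h0
      have b1 : B (c + uv i) = 0 := by
        simp only [B]
        rw [dif_neg]
        intro h
        have := (mem_YF.mp h).2.1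
        simp [uv, hc0] at this
      have b2 : B (c - uv i) = 0 := by
        simp only [B]
        rw [dif_neg]
        intro h
        have := (mem_YF.mp h).2.1
        simp [uv, hc0] at this
      rw [b1, b2, if_pos rfl, if_neg hne]
      ring
    · by_cases h1 : i = i1
      · subst h1
        have b1 : B (c + uv i) = 0 := by
          simp only [B]
          rw [dif_neg]
          intro h
          have := (mem_YF.mp h).2.2
          simp [uv, hc1] at this
        have b2 : B (c - uv i) = 0 := by
          simp only [B]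
          rw [dif_neg]
          intro h
          have := (mem_YF.mp h).2.2
          simp [uv, hc1] at this
        rw [b1, b2, if_neg h0, if_pos rfl]
        ring
      · rw [if_neg h0, if_neg h1, add_zero, add_zero]
        have hcp : col i0 i1 (u + uv i) = c + uv i := by
          funext j
          rw [hcdef]
          simp only [col, Pi.add_apply, uv]
          by_cases hj : j = i
          · subst hj; simp [h0, h1]
          · simp [hj]
        have hcm : col i0 i1 (u - uv i) = c - uv i := by
          funext j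
          rw [hcdef]
          simp only [col, Pi.sub_apply, uv]
          by_cases hj : j = i
          · subst hj; simp [h0, h1]
          · simp [hj]
        have habs : ∀ j, |(uv i : Site d) j| ≤ 1 := by
          intro j
          by_cases hj : j = i
          · subst hj; simp [uv]
          · simp [uv, hj]
        have mp : c + uv i ∈ YF i0 i1 R := by
          rw [← hcp]
          apply col_mem
          intro j
          have h1 := abs_add_le (u j) ((uv i : Site d) j)
          have h2 := habs j
          have h3 := hu j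
          rw [Pi.add_apply]
          omega
        have mm : c - uv i ∈ YF i0 i1 R := by
          rw [← hcm]
          apply col_mem
          intro j
          have h1 := abs_sub (u j) ((uv i : Site d) j)
          have h2 := habs j
          have h3 := hu j
          rw [Pi.sub_apply]
          omega
        have z0 : (uv i : Site d) i0 = 0 := by simp [uv, Ne.symm h0]
        have z1 : (uv i : Site d) i1 = 0 := by simp [uv, Ne.symm h1]
        have l1 : lift s (u + uv i) = s (cst n (u i1), cst n (u i0), ⟨c + uv i, mp⟩) :=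
          lift_of s hcp.symm (by rw [Pi.add_apply, z1, add_zero]) (by rw [Pi.add_apply, z0, add_zero])
        have l2 : lift s (u - uv i) = s (cst n (u i1), cst n (u i0), ⟨c - uv i, mm⟩) :=
          lift_of s hcm.symm (by rw [Pi.sub_apply, z1, sub_zero]) (by rw [Pi.sub_apply, z0, sub_zero])
        have j1 : Jc K u (u + uv i) = Jc K c (c + uv i) := (Jc_col hK u (uv i)).symm
        have j2 : Jc K u (u - uv i) = Jc K c (c - uv i) := by
          have := Jc_col hK u (-uv i)
          rw [← sub_eq_add_neg, ← sub_eq_add_neg] at this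
          exact this.symm
        simp only [hA, B]
        rw [dif_pos mp, dif_pos mm, l1, l2, j1, j2]
  rw [Finset.sum_congr rfl (fun i _ => hAB i), Finset.sum_add_distrib, Finset.sum_add_distrib,
    Finset.sum_ite_eq' Finset.univ i0, Finset.sum_ite_eq' Finset.univ i1, if_pos (Finset.mem_univ _),
    if_pos (Finset.mem_univ _)]
  have hcol : ∀ i, i = i0 ∨ i = i1 → ∀ k : ℤ, col i0 i1 (u + k • uv i) = c := by
    intro i hi k
    rw [hcdef]
    funext j
    simp only [col, Pi.add_apply, Pi.smul_apply, uv]
    by_cases hj : j = i0 ∨ j = i1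
    · rw [if_pos hj, if_pos hj]
    · rw [if_neg hj, if_neg hj]
      have : j ≠ i := by
        rintro rfl; exact hj hi
      simp [this]
  have u0 : (uv i0 : Site d) i0 = 1 := by simp [uv]
  have u1 : (uv i1 : Site d) i1 = 1 := by simp [uv]
  have u01 : (uv i0 : Site d) i1 = 0 := by simp [uv, Ne.symm hne]
  have u10 : (uv i1 : Site d) i0 = 0 := by simp [uv, hne]
  have a0 : A i0 = sg (s (cst n (u i1), cst n (u i0) + 1, ⟨c, hc⟩)) +
      sg (s (cst n (u i1), cst n (u i0) - 1, ⟨c, hc⟩)) := by
    simp only [hA]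
    have j2 : Jc K u (u - uv i0) = 1 := by
      rw [Jc_comm]
      have := hK.one0 (u - uv i0)
      rwa [sub_add_cancel] at this
    rw [hK.one0, j2, one_mul, one_mul]
    congr 2
    · apply lift_of
      · have := hcol i0 (Or.inl rfl) 1
        rw [one_smul] at this
        exact this.symm
      · rw [Pi.add_apply, u01, add_zero]
      · rw [Pi.add_apply, u0, cst_succ]
    · apply lift_of
      · have := hcol i0 (Or.inl rfl) (-1)
        rw [neg_smul, one_smul, ← sub_eq_add_neg] at this
        exact this.symm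
      · rw [Pi.sub_apply, u01, sub_zero]
      · rw [Pi.sub_apply, u0, cst_pred]
  have a1 : A i1 = sg (s (cst n (u i1) + 1, cst n (u i0), ⟨c, hc⟩)) +
      sg (s (cst n (u i1) - 1, cst n (u i0), ⟨c, hc⟩)) := by
    simp only [hA]
    have j2 : Jc K u (u - uv i1) = 1 := by
      rw [Jc_comm]
      have := hK.one1 (u - uv i1)
      rwa [sub_add_cancel] at this
    rw [hK.one1, j2, one_mul, one_mul]
    congr 2
    · apply lift_of
      · have := hcol i1 (Or.inr rfl) 1
        rw [one_smul] at this
        exact this.symm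
      · rw [Pi.add_apply, u1, cst_succ]
      · rw [Pi.add_apply, u10, add_zero]
    · apply lift_of
      · have := hcol i1 (Or.inr rfl) (-1)
        rw [neg_smul, one_smul, ← sub_eq_add_neg] at this
        exact this.symm
      · rw [Pi.sub_apply, u1, cst_pred]
      · rw [Pi.sub_apply, u10, sub_zero]
  rw [a0, a1]
  ring

end Pool.Agent.K9h1.EA
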