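import Pool.Agent.K9h1.EA.Torus

/-!
# Disagreement estimates on the torus
-/

set_option autoImplicit false

namespace Pool.Agent.K9h1.EA

open Matrix Pool.H47EA

variable {Y : Type} [Fintype Y] [DecidableEq Y] {n : ℕ}

lemma sg_not (b : Bool) : sg (!b) = -sg b := by cases b <;> simp [sg]

lemma sg_mul_self (b : Bool) : sg b * sg b = 1 := by cases b <;> simp [sg]

lemma sg_mul_ne {b c : Bool} (h : b ≠ c) : sg b * sg c = -1 := by
  cases b <;> cases c <;> simp_all [sg]

lemma sg_mul_le (b c : Bool) : sg b * sg c ≤ 1 := by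
  cases b <;> cases c <;> norm_num [sg]

/-- configurations of the torus -/
abbrev Cf (n : ℕ) (Y : Type) : Type := Fin (n + 1) → Fin (n + 1) → Y → Bool

/-- the weight of a configuration -/
noncomputable def W (n : ℕ) (h : (Y → Bool) → ℝ) (β : ℝ) (σ : Cf n Y) : ℝ :=
  ∏ b, ∏ a, Real.exp (h (σ b a)) * Real.exp (S (fun _ => β) (σ b a) (σ b (a + 1))) *
    Real.exp (S (fun _ => β) (σ b a) (σ (b + 1) a))

omit [DecidableEq Y] in
lemma W_pos (h : (Y → Bool) → ℝ) (β : ℝ) (σ : Cf n Y) : 0 < W n h β σ :=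
  Finset.prod_pos fun _ _ => Finset.prod_pos fun _ _ =>
    mul_pos (mul_pos (Real.exp_pos _) (Real.exp_pos _)) (Real.exp_pos _)

/-- the partition function -/
noncomputable def ZZ (n : ℕ) (h : (Y → Bool) → ℝ) (β : ℝ) : ℝ := ∑ σ : Cf n Y, W n h β σ

lemma ZZ_pos (h : (Y → Bool) → ℝ) (β : ℝ) : 0 < ZZ n h β :=
  Finset.sum_pos (fun σ _ => W_pos h β σ) Finset.univ_nonempty

/-- frozen partition function -/
noncomputable def Fz (n : ℕ) (h : (Y → Bool) → ℝ) (β : ℝ) (x : Y)
    (s : Fin (n + 1) → Fin (n + 1) → Bool) : ℝ :=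
  TT n (fun c ω => if ω x = c then Real.exp (h ω) else 0)
    (fun _ ω ω' => Real.exp (S (fun y => if y = x then 0 else β) ω ω'))
    (fun y => if y = x then 0 else β) s

/-- energy of the frozen component -/
noncomputable def En (n : ℕ) (s : Fin (n + 1) → Fin (n + 1) → Bool) : ℝ :=
  ∑ b, ∑ a, (sg (s b a) * sg (s b (a + 1)) + sg (s b a) * sg (s (b + 1) a))

lemma S_split (β : ℝ) (x : Y) (ω ω' : Y → Bool) :
    S (fun _ => β) ω ω' = S (fun y => if y = x then 0 else β) ω ω' + β * (sg (ω x) * sg (ω' x)) := by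
  unfold S
  rw [← Finset.add_sum_erase _ _ (Finset.mem_univ x),
    ← Finset.add_sum_erase (a := x) Finset.univ
      (fun y => (if y = x then 0 else β) * sg (ω y) * sg (ω' y)) (Finset.mem_univ x)]
  have : ∑ y ∈ Finset.univ.erase x, (if y = x then 0 else β) * sg (ω y) * sg (ω' y) =
      ∑ y ∈ Finset.univ.erase x, β * sg (ω y) * sg (ω' y) := by
    apply Finset.sum_congr rfl
    intro y hy
    rw [if_neg (Finset.ne_of_mem_erase hy)]
  rw [this, if_pos rfl]
  ring

lemma W_frozen (h : (Y → Bool) → ℝ) (β : ℝ) (x : Y) (s : Fin (n + 1) → Fin (n + 1) → Bool)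
    (σ : Cf n Y) :
    (if (fun b a => σ b a x) = s then W n h β σ else 0) = Real.exp (β * En n s) *
      ∏ b, ∏ a, (if σ b a x = s b a then Real.exp (h (σ b a)) else 0) *
        Real.exp (S (fun y => if y = x then 0 else β) (σ b a) (σ b (a + 1))) *
        Real.exp (S (fun y => if y = x then 0 else β) (σ b a) (σ (b + 1) a)) := by
  by_cases hs : (fun b a => σ b a x) = s
  · rw [if_pos hs]
    subst hs
    simp only [if_true]
    have h1 : Real.exp (β * En n (fun b a => σ b a x)) = ∏ b, ∏ a,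
        (Real.exp (β * (sg (σ b a x) * sg (σ b (a + 1) x))) *
          Real.exp (β * (sg (σ b a x) * sg (σ (b + 1) a x)))) := by
      unfold En
      rw [Finset.mul_sum, Real.exp_sum]
      apply Finset.prod_congr rfl
      intro b _
      rw [Finset.mul_sum, Real.exp_sum]
      apply Finset.prod_congr rfl
      intro a _
      rw [← Real.exp_add, mul_add]
    rw [h1, ← Finset.prod_mul_distrib]
    unfold W
    apply Finset.prod_congr rfl
    intro b _
    rw [← Finset.prod_mul_distrib]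
    apply Finset.prod_congr rfl
    intro a _
    rw [S_split β x (σ b a) (σ b (a + 1)), S_split β x (σ b a) (σ (b + 1) a), Real.exp_add,
      Real.exp_add]
    ring
  · rw [if_neg hs]
    have : ∃ b a, σ b a x ≠ s b a := by
      by_contra hc
      push Not at hc
      exact hs (funext fun b => funext fun a => hc b a)
    obtain ⟨b, a, hba⟩ := this
    rw [Finset.prod_eq_zero (Finset.mem_univ b), mul_zero]
    rw [Finset.prod_eq_zero (Finset.mem_univ a)]
    rw [if_neg hba]
    ring

lemma sum_frozen (h : (Y → Bool) → ℝ) (β : ℝ) (x : Y) (s : Fin (n + 1) → Fin (n + 1) → Bool) :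
    ∑ σ : Cf n Y, (if (fun b a => σ b a x) = s then W n h β σ else 0) =
      Real.exp (β * En n s) * Fz n h β x s := by
  unfold Fz TT
  rw [Finset.mul_sum]
  exact Finset.sum_congr rfl fun σ _ => W_frozen h β x s σ

lemma Fz_nonneg (h : (Y → Bool) → ℝ) (β : ℝ) (x : Y) (s : Fin (n + 1) → Fin (n + 1) → Bool) :
    0 ≤ Fz n h β x s := by
  unfold Fz TT
  refine Finset.sum_nonneg fun σ _ => Finset.prod_nonneg fun b _ => Finset.prod_nonneg fun a _ => ?_
  refine mul_nonneg (mul_nonneg ?_ (Real.exp_pos _).le) (Real.exp_pos _).le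
  show 0 ≤ if σ b a x = s b a then Real.exp (h (σ b a)) else 0
  split_ifs
  · exact (Real.exp_pos _).le
  · exact le_refl _

/-- the flip of all spins -/
def flip : Cf n Y ≃ Cf n Y :=
  Function.Involutive.toPerm (fun σ b a y => !σ b a y) (by intro σ; simp)

omit [DecidableEq Y] in
lemma S_flip (κ : Y → ℝ) (ω ω' : Y → Bool) :
    S κ (fun y => !ω y) (fun y => !ω' y) = S κ ω ω' := by
  unfold S
  apply Finset.sum_congr rfl
  intro y _
  rw [sg_not, sg_not]; ring

lemma Fz_const (h : (Y → Bool) → ℝ) (hh : ∀ ω, h (fun y => !ω y) = h ω) (β : ℝ) (x : Y) (c : Bool) :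
    Fz n h β x (fun _ _ => c) = Fz n h β x (fun _ _ => !c) := by
  unfold Fz TT
  rw [← Equiv.sum_comp (flip (n := n) (Y := Y))]
  apply Finset.sum_congr rfl
  intro σ _
  apply Finset.prod_congr rfl
  intro b _
  apply Finset.prod_congr rfl
  intro a _
  show (if (!σ b a x) = c then Real.exp (h (fun y => !σ b a y)) else 0) *
    Real.exp (S _ (fun y => !σ b a y) (fun y => !σ b (a + 1) y)) *
    Real.exp (S _ (fun y => !σ b a y) (fun y => !σ (b + 1) a y)) = _
  rw [S_flip, S_flip, hh]
  congr 2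
  have : ((!σ b a x) = c) ↔ (σ b a x = !c) := by
    cases σ b a x <;> cases c <;> simp
  simp only [this]

lemma Fz_le (hn : Even (n + 1)) (h : (Y → Bool) → ℝ) (hh : ∀ ω, h (fun y => !ω y) = h ω) {β : ℝ}
    (hβ : 0 ≤ β) (x : Y) (s : Fin (n + 1) → Fin (n + 1) → Bool) :
    Fz n h β x s ≤ Fz n h β x (fun _ _ => true) := by
  have hw : ∀ (c : Bool) (ω : Y → Bool), 0 ≤ (if ω x = c then Real.exp (h ω) else 0) := by
    intro c ω
    split_ifs
    · exact (Real.exp_pos _).le
    · exact le_refl _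
  have hκ : ∀ y, 0 ≤ (fun y => if y = x then 0 else β) y := by
    intro y
    show 0 ≤ if y = x then 0 else β
    split_ifs
    · exact le_refl _
    · exact hβ
  obtain ⟨p, hp⟩ := rows (n := n) (w := fun c ω => if ω x = c then Real.exp (h ω) else 0)
    (e := fun _ ω ω' => Real.exp (S (fun y => if y = x then 0 else β) ω ω')) hw
    (fun _ _ _ => (Real.exp_pos _).le) hκ hn s
  obtain ⟨c, hc⟩ := cols_psd (n := n) (w := fun c ω => if ω x = c then Real.exp (h ω) else 0)
    hw hκ hn p
  have h1 : Fz n h β x s ≤ Fz n h β x (fun _ _ => c) := hp.trans hc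
  cases c with
  | true => exact h1
  | false =>
    rw [Fz_const h hh] at h1
    exact h1

lemma En_const (c : Bool) : En n (fun _ _ => c) = 2 * ((n : ℝ) + 1) ^ 2 := by
  unfold En
  simp only [sg_mul_self, Finset.sum_const, Finset.card_univ, Fintype.card_fin, nsmul_eq_mul]
  push_cast; ring

lemma En_bad {s : Fin (n + 1) → Fin (n + 1) → Bool} (hs : ∀ b a, s b a ≠ s b (a + 1)) :
    En n s ≤ 0 := by
  unfold En
  refine Finset.sum_nonpos fun b _ => Finset.sum_nonpos fun a _ => ?_
  have h1 := sg_mul_ne (hs b a)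
  have h2 := sg_mul_le (s b a) (s (b + 1) a)
  linarith

/-- the parameter of the estimates -/
noncomputable def qq (β : ℝ) : ℝ := 2 * Real.exp (-(2 * β))

lemma qq_pos (β : ℝ) : 0 < qq β := by unfold qq; positivity

/-- all horizontal edges are bad -/
lemma all_bad (hn : Even (n + 1)) (h : (Y → Bool) → ℝ) (hh : ∀ ω, h (fun y => !ω y) = h ω) {β : ℝ}
    (hβ : 0 ≤ β) (x : Y) :
    ∑ σ : Cf n Y, (if ∀ b a, σ b a x ≠ σ b (a + 1) x then W n h β σ else 0) ≤
      qq β ^ ((n + 1) ^ 2) * ZZ n h β := by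
  classical
  have hZ : Real.exp (β * (2 * ((n : ℝ) + 1) ^ 2)) * Fz n h β x (fun _ _ => true) ≤ ZZ n h β := by
    rw [← En_const (n := n) true, ← sum_frozen]
    unfold ZZ
    apply Finset.sum_le_sum
    intro σ _
    split_ifs
    · exact le_refl _
    · exact (W_pos h β σ).le
  have h1 : ∑ σ : Cf n Y, (if ∀ b a, σ b a x ≠ σ b (a + 1) x then W n h β σ else 0) =
      ∑ s : Fin (n + 1) → Fin (n + 1) → Bool, if ∀ b a, s b a ≠ s b (a + 1) then
        Real.exp (β * En n s) * Fz n h β x s else 0 := by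
    have h2 : ∀ s : Fin (n + 1) → Fin (n + 1) → Bool,
        (if ∀ b a, s b a ≠ s b (a + 1) then Real.exp (β * En n s) * Fz n h β x s else 0) =
        ∑ σ : Cf n Y, if (fun b a => σ b a x) = s then
          (if ∀ b a, σ b a x ≠ σ b (a + 1) x then W n h β σ else 0) else 0 := by
      intro s
      rw [← sum_frozen]
      by_cases hs : ∀ b a, s b a ≠ s b (a + 1)
      · rw [if_pos hs]
        apply Finset.sum_congr rfl
        intro σ _
        by_cases hσ : (fun b a => σ b a x) = s
        · rw [if_pos hσ, if_pos hσ, if_pos]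
          subst hσ
          exact hs
        · rw [if_neg hσ, if_neg hσ]
      · rw [if_neg hs]
        symm
        apply Finset.sum_eq_zero
        intro σ _
        by_cases hσ : (fun b a => σ b a x) = s
        · rw [if_pos hσ, if_neg]
          subst hσ
          exact hs
        · rw [if_neg hσ]
    rw [Finset.sum_congr rfl fun s _ => h2 s, Finset.sum_comm]
    apply Finset.sum_congr rfl
    intro σ _
    rw [Finset.sum_ite_eq]
    simp
  rw [h1]
  have h3 : ∀ s : Fin (n + 1) → Fin (n + 1) → Bool, (if ∀ b a, s b a ≠ s b (a + 1) then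
        Real.exp (β * En n s) * Fz n h β x s else 0) ≤ Fz n h β x (fun _ _ => true) := by
    intro s
    split_ifs with hs
    · have h4 := Fz_le hn h hh hβ x s
      have h5 : Real.exp (β * En n s) ≤ 1 := by
        rw [Real.exp_le_one_iff]
        exact mul_nonpos_of_nonneg_of_nonpos hβ (En_bad hs)
      calc Real.exp (β * En n s) * Fz n h β x s ≤ 1 * Fz n h β x s :=
            mul_le_mul_of_nonneg_right h5 (Fz_nonneg _ _ _ _)
        _ ≤ _ := by rw [one_mul]; exact h4
    · exact Fz_nonneg _ _ _ _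
  refine (Finset.sum_le_sum fun s _ => h3 s).trans ?_
  rw [Finset.sum_const, Finset.card_univ, nsmul_eq_mul]
  have hc : (Fintype.card (Fin (n + 1) → Fin (n + 1) → Bool) : ℝ) = 2 ^ ((n + 1) ^ 2) := by
    rw [Fintype.card_fun, Fintype.card_fun, Fintype.card_bool, Fintype.card_fin]
    push_cast
    rw [← pow_mul, pow_two]
  rw [hc]
  have h6 : qq β ^ ((n + 1) ^ 2) = 2 ^ ((n + 1) ^ 2) * Real.exp (-(β * (2 * ((n : ℝ) + 1) ^ 2))) := by
    unfold qq
    rw [mul_pow, ← Real.exp_nat_mul]
    congr 2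
    push_cast; ring
  rw [h6, mul_assoc]
  apply mul_le_mul_of_nonneg_left _ (by positivity)
  rw [Real.exp_neg, inv_mul_eq_div, le_div_iff₀ (Real.exp_pos _), mul_comm]
  exact hZ

/-- **the estimate for horizontal edges** -/
theorem est_h (hn : Even (n + 1)) (h : (Y → Bool) → ℝ) (hh : ∀ ω, h (fun y => !ω y) = h ω) {β : ℝ}
    (hβ : 0 ≤ β) (x : Y) (A : Finset (Fin (n + 1) × Fin (n + 1))) :
    ∑ σ : Cf n Y, (if ∀ p ∈ A, σ p.1 p.2 x ≠ σ p.1 (p.2 + 1) x then W n h β σ else 0) ≤
      qq β ^ A.card * ZZ n h β := by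
  classical
  have hq := qq_pos β
  let e : Bool → (Y → Bool) → (Y → Bool) → ℝ := fun c ω ω' => Real.exp (S (fun _ => β) ω ω') *
    (if c then (if ω x ≠ ω' x then (qq β)⁻¹ else 0) else 1)
  let TE : (Fin (n + 1) → Fin (n + 1) → Bool) → ℝ := fun s =>
    TT n (fun _ ω => Real.exp (h ω)) e (fun _ => β) s
  have he : ∀ c ω ω', 0 ≤ e c ω ω' := by
    intro c ω ω'
    refine mul_nonneg (Real.exp_pos _).le ?_
    split_ifs
    · exact (inv_pos.mpr hq).le
    · exact le_refl _
    · norm_num
  have hs : ∀ c ω ω', e c ω ω' = e c ω' ω := by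
    intro c ω ω'
    show Real.exp _ * _ = Real.exp _ * _
    rw [S_comm]
    congr 1
    simp only [ne_comm]
  have key : ∀ B : Finset (Fin (n + 1) × Fin (n + 1)),
      TE (fun b a => decide ((b, a) ∈ B)) = (qq β)⁻¹ ^ B.card *
        ∑ σ : Cf n Y, (if ∀ p ∈ B, σ p.1 p.2 x ≠ σ p.1 (p.2 + 1) x then W n h β σ else 0) := by
    intro B
    show TT n _ e _ _ = _
    unfold TT
    rw [Finset.mul_sum]
    apply Finset.sum_congr rfl
    intro σ _
    have h1 : ∀ b a, (Real.exp (h (σ b a)) * e (decide ((b, a) ∈ B)) (σ b a) (σ b (a + 1)) *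
        Real.exp (S (fun _ => β) (σ b a) (σ (b + 1) a))) =
        (Real.exp (h (σ b a)) * Real.exp (S (fun _ => β) (σ b a) (σ b (a + 1))) *
          Real.exp (S (fun _ => β) (σ b a) (σ (b + 1) a))) *
        (if (b, a) ∈ B then (if σ b a x ≠ σ b (a + 1) x then (qq β)⁻¹ else 0) else 1) := by
      intro b a
      show Real.exp (h (σ b a)) * (Real.exp (S (fun _ => β) (σ b a) (σ b (a + 1))) *
        (if decide ((b, a) ∈ B) = true then (if σ b a x ≠ σ b (a + 1) x then (qq β)⁻¹ else 0)
          else 1)) * _ = _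
      simp only [decide_eq_true_eq]
      ring
    simp only [h1, Finset.prod_mul_distrib]
    have h2 : ∏ b, ∏ a, (if (b, a) ∈ B then (if σ b a x ≠ σ b (a + 1) x then (qq β)⁻¹ else 0)
        else 1) = ∏ p ∈ B, (if σ p.1 p.2 x ≠ σ p.1 (p.2 + 1) x then (qq β)⁻¹ else 0) := by
      rw [← Fintype.prod_prod_type', ← Finset.prod_filter_mul_prod_filter_not Finset.univ
        (fun p : Fin (n + 1) × Fin (n + 1) => p ∈ B)]
      rw [Finset.prod_congr rfl (g := fun _ => (1 : ℝ)) (s₁ := Finset.univ.filter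
        (fun p : Fin (n + 1) × Fin (n + 1) => ¬ p ∈ B)) (by
          intro p hp
          rw [Finset.mem_filter] at hp
          rw [if_neg hp.2]), Finset.prod_const_one, mul_one]
      have : Finset.univ.filter (fun p : Fin (n + 1) × Fin (n + 1) => p ∈ B) = B := by
        ext p; simp
      rw [this]
      apply Finset.prod_congr rfl
      intro p hp
      rw [if_pos hp]
    rw [h2]
    have h3 : W n h β σ = (∏ b, ∏ a, Real.exp (h (σ b a))) *
        (∏ b, ∏ a, Real.exp (S (fun _ => β) (σ b a) (σ b (a + 1)))) *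
        ∏ b, ∏ a, Real.exp (S (fun _ => β) (σ b a) (σ (b + 1) a)) := by
      unfold W
      simp only [Finset.prod_mul_distrib]
    rw [← h3]
    by_cases hB : ∀ p ∈ B, σ p.1 p.2 x ≠ σ p.1 (p.2 + 1) x
    · rw [if_pos hB, Finset.prod_congr rfl (fun p hp => if_pos (hB p hp)), Finset.prod_const]
      ring
    · rw [if_neg hB]
      push Not at hB
      obtain ⟨p, hp, hp2⟩ := hB
      rw [Finset.prod_eq_zero hp (by rw [if_neg (by simpa using hp2)])]
      ring
  have hfalse : TE (fun _ _ => false) = ZZ n h β := by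
    have := key ∅
    simp only [Finset.notMem_empty, decide_false, Finset.card_empty, pow_zero, one_mul,
      false_imp_iff, implies_true, if_true] at this
    rw [this]; rfl
  have htrue : TE (fun _ _ => true) ≤ ZZ n h β := by
    have := key Finset.univ
    simp only [Finset.mem_univ, decide_true, true_imp_iff, Finset.card_univ,
      Fintype.card_prod, Fintype.card_fin, Prod.forall] at this
    rw [this]
    have h1 := all_bad hn h hh hβ x
    calc (qq β)⁻¹ ^ ((n + 1) * (n + 1)) * _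
        ≤ (qq β)⁻¹ ^ ((n + 1) * (n + 1)) * (qq β ^ ((n + 1) ^ 2) * ZZ n h β) :=
          mul_le_mul_of_nonneg_left h1 (by positivity)
      _ = ZZ n h β := by
          rw [← mul_assoc, ← pow_two, ← mul_pow, inv_mul_cancel₀ hq.ne', one_pow, one_mul]
  obtain ⟨p, hp⟩ := rows (n := n) (w := fun _ ω => Real.exp (h ω)) (e := e) (κ := fun _ => β)
    (fun _ _ => (Real.exp_pos _).le) he (fun _ => hβ) hn (fun b a => decide ((b, a) ∈ A))
  obtain ⟨c, hc⟩ := cols_sym (n := n) (w := fun ω => Real.exp (h ω)) (e := e) (κ := fun _ => β)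
    (fun _ => (Real.exp_pos _).le) he hs hn p
  have h1 : TE (fun b a => decide ((b, a) ∈ A)) ≤ TE (fun _ _ => c) := hp.trans hc
  have h2 : TE (fun b a => decide ((b, a) ∈ A)) ≤ ZZ n h β := by
    cases c with
    | true => exact h1.trans htrue
    | false => rw [← hfalse]; exact h1
  rw [key A] at h2
  calc _ = qq β ^ A.card * ((qq β)⁻¹ ^ A.card * ∑ σ : Cf n Y,
        (if ∀ p ∈ A, σ p.1 p.2 x ≠ σ p.1 (p.2 + 1) x then W n h β σ else 0)) := by
        rw [← mul_assoc, ← mul_pow, mul_inv_cancel₀ hq.ne', one_pow, one_mul]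
    _ ≤ _ := mul_le_mul_of_nonneg_left h2 (by positivity)

omit [DecidableEq Y] in
lemma W_swap (h : (Y → Bool) → ℝ) (β : ℝ) (σ : Cf n Y) :
    W n h β (fun b a => σ a b) = W n h β σ := by
  unfold W
  rw [Finset.prod_comm]
  apply Finset.prod_congr rfl
  intro b _
  apply Finset.prod_congr rfl
  intro a _
  ring

/-- **the estimate for vertical edges** -/
theorem est_v (hn : Even (n + 1)) (h : (Y → Bool) → ℝ) (hh : ∀ ω, h (fun y => !ω y) = h ω) {β : ℝ}
    (hβ : 0 ≤ β) (x : Y) (A : Finset (Fin (n + 1) × Fin (n + 1))) :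
    ∑ σ : Cf n Y, (if ∀ p ∈ A, σ p.2 p.1 x ≠ σ (p.2 + 1) p.1 x then W n h β σ else 0) ≤
      qq β ^ A.card * ZZ n h β := by
  refine le_trans (le_of_eq ?_) (est_h hn h hh hβ x A)
  rw [← (Equiv.piComm (fun _ _ : Fin (n + 1) => (Y → Bool))).sum_comp]
  apply Finset.sum_congr rfl
  intro σ _
  rw [← W_swap h β σ]
  rfl

end Pool.Agent.K9h1.EA
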