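import Mathlib
import Pool.Agent.H47R2.EA.BASIC
import Pool.Agent.Helper580.IsingLat

/-!
# Single flips
-/

set_option autoImplicit false

namespace Pool.Agent.K9h1.EA

open Pool.H47EA

/-- quadratic form -/
noncomputable def Q {V : Type*} [Fintype V] (c : V → V → ℝ) (s : V → ℝ) : ℝ :=
  (1 / 2) * ∑ a, ∑ b, c a b * s a * s b

lemma quad_flip {V : Type*} [Fintype V] [DecidableEq V] (c : V → V → ℝ)
    (hc : ∀ a b, c a b = c b a) {u : V} (h0 : c u u = 0) (s : V → ℝ) :
    Q c s - Q c (Function.update s u (-s u)) = 2 * s u * ∑ v, c u v * s v := by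
  have h1 : ∀ b, Function.update s u (-s u) b = s b - 2 * s u * (if b = u then 1 else 0) := by
    intro b
    by_cases hb : b = u
    · subst hb; rw [Function.update_self, if_pos rfl]; ring
    · rw [Function.update_of_ne hb, if_neg hb]; ring
  have h2 : ∑ a, ∑ b, c a b * Function.update s u (-s u) a * Function.update s u (-s u) b =
      ∑ a, ∑ b, c a b * s a * s b - 2 * s u * (∑ b, c u b * s b) - 2 * s u * (∑ a, c u a * s a) := by
    have h3 : ∀ a b, c a b * Function.update s u (-s u) a * Function.update s u (-s u) b =
        c a b * s a * s b - (if a = u then 2 * s u * (c u b * s b) else 0) -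
          (if b = u then 2 * s u * (c u a * s a) else 0) +
          (if a = u then (if b = u then 4 * s u ^ 2 * c u u else 0) else 0) := by
      intro a b
      rw [h1, h1]
      by_cases ha : a = u <;> by_cases hb : b = u
      · subst ha; subst hb; simp only [if_true]; ring
      · subst ha; simp only [if_true, hb, if_false]; ring
      · subst hb; simp only [if_true, ha, if_false]; rw [hc a b]; ring
      · simp only [ha, hb, if_false]; ring
    simp only [h3, Finset.sum_add_distrib, Finset.sum_sub_distrib, Finset.sum_ite_eq',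
      Finset.mem_univ, if_true, h0]
    simp only [mul_zero, ite_self, Finset.sum_const_zero, add_zero]
    have h4 : ∑ x, ∑ x_1, (if x = u then 2 * s u * (c u x_1 * s x_1) else 0) =
        2 * s u * ∑ b, c u b * s b := by
      rw [Finset.sum_comm]
      simp only [Finset.sum_ite_eq', Finset.mem_univ, if_true]
      rw [Finset.mul_sum]
    have h5 : ∑ x, 2 * s u * (c u x * s x) = 2 * s u * ∑ b, c u b * s b := by
      rw [Finset.mul_sum]
    rw [h4, h5]
  unfold Q
  rw [h2]
  ring

/-- a function on the cube which does not change under single flips is constant -/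
lemma const_of_flips {Λ : Type*} [Fintype Λ] [DecidableEq Λ] (f : (Λ → Bool) → ℝ)
    (hf : ∀ η u, f (Function.update η u (!η u)) = f η) (η η' : Λ → Bool) : f η = f η' := by
  have key : ∀ (m : ℕ) (η : Λ → Bool), (Finset.univ.filter (fun u => η u ≠ η' u)).card = m →
      f η = f η' := by
    intro m
    induction m with
    | zero =>
      intro η h
      rw [Finset.card_eq_zero, Finset.filter_eq_empty_iff] at h
      congr 1
      funext u
      have := h (Finset.mem_univ u)
      simpa using this
    | succ m ih =>
      intro η h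
      have hne : (Finset.univ.filter (fun u => η u ≠ η' u)).Nonempty := by
        rw [← Finset.card_pos]; omega
      obtain ⟨u, hu⟩ := hne
      rw [← hf η u]
      apply ih
      have h1 : Finset.univ.filter (fun v => Function.update η u (!η u) v ≠ η' v) =
          (Finset.univ.filter (fun v => η v ≠ η' v)).erase u := by
        ext v
        simp only [Finset.mem_filter, Finset.mem_univ, true_and, Finset.mem_erase]
        by_cases hv : v = u
        · subst hv
          rw [Function.update_self]
          rw [Finset.mem_filter] at hu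
          have h2 := hu.2
          simp only [ne_eq, not_true_eq_false, false_and, iff_false, not_not]
          revert h2
          cases η v <;> cases η' v <;> simp
        · rw [Function.update_of_ne hv]
          simp [hv]
      rw [h1, Finset.card_erase_of_mem hu]
      omega
  exact key _ η rfl

/-- resampling -/
lemma resample {V Λ : Type*} [Fintype V] [DecidableEq V] [Fintype Λ] [DecidableEq Λ] {ι : Λ → V}
    (hι : Function.Injective ι) (f : (V → Bool) → ℝ) :
    ∑ s : V → Bool, ∑ η : Λ → Bool, f (Function.extend ι η s) =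
      (Fintype.card (Λ → Bool) : ℝ) * ∑ s : V → Bool, f s := by
  let e : ((V → Bool) × (Λ → Bool)) ≃ ((V → Bool) × (Λ → Bool)) :=
    Function.Involutive.toPerm (fun p => (Function.extend ι p.2 p.1, p.1 ∘ ι)) (by
      rintro ⟨s, η⟩
      apply Prod.ext
      · funext v
        show Function.extend ι (s ∘ ι) (Function.extend ι η s) v = s v
        by_cases hv : ∃ u, ι u = v
        · obtain ⟨u, rfl⟩ := hv
          rw [hι.extend_apply]
          rfl
        · rw [Function.extend_apply' _ _ _ hv, Function.extend_apply' _ _ _ hv]
      · funext u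
        show Function.extend ι η s (ι u) = η u
        rw [hι.extend_apply])
  have h1 : ∑ s : V → Bool, ∑ η : Λ → Bool, f (Function.extend ι η s) =
      ∑ p : (V → Bool) × (Λ → Bool), f (e p).1 := by
    rw [Fintype.sum_prod_type]
    rfl
  rw [h1, Equiv.sum_comp e (fun p => f p.1), Fintype.sum_prod_type]
  simp only [Finset.sum_const, Finset.card_univ, nsmul_eq_mul]
  rw [← Finset.mul_sum]

lemma extend_update {V Λ : Type*} [DecidableEq V] [DecidableEq Λ] {ι : Λ → V}
    (hι : Function.Injective ι) (s : V → Bool) (η : Λ → Bool) (u : Λ) (b : Bool) :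
    Function.extend ι (Function.update η u b) s = Function.update (Function.extend ι η s) (ι u) b := by
  funext v
  by_cases hv : ∃ w, ι w = v
  · obtain ⟨w, rfl⟩ := hv
    rw [hι.extend_apply]
    by_cases hw : w = u
    · subst hw; rw [Function.update_self, Function.update_self]
    · rw [Function.update_of_ne hw, Function.update_of_ne (fun h => hw (hι h)), hι.extend_apply]
  · rw [Function.extend_apply' _ _ _ hv]
    rw [Function.update_of_ne (fun h => hv ⟨u, h.symm⟩), Function.extend_apply' _ _ _ hv]

variable {d : ℕ}

lemma glue_update (Λ : Finset (Site d)) (η : Λ → Bool) (τ : Site d → Bool) (u : Λ) (b : Bool) :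
    glue Λ (Function.update η u b) τ = Function.update (glue Λ η τ) u.1 b := by
  funext v
  by_cases hv : v ∈ Λ
  · rw [Basic.glue_mem _ _ hv]
    by_cases hvu : v = u.1
    · subst hvu
      rw [Function.update_self, Function.update_self]
    · rw [Function.update_of_ne hvu, Function.update_of_ne (fun h => hvu (congrArg Subtype.val h)),
        Basic.glue_mem _ _ hv]
  · rw [Basic.glue_not_mem _ _ hv, Function.update_of_ne (fun h => hv (by rw [h]; exact u.2)),
      Basic.glue_not_mem _ _ hv]

lemma dist1_self (x : Site d) : dist1 x x = 0 := by simp [dist1]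

/-- flipping one spin inside `Λ` -/
lemma ham_flip (J : Coupling d) {Λ : Finset (Site d)} {u : Site d} (hu : u ∈ Λ)
    (τ : Site d → Bool) :
    ham J Λ τ - ham J Λ (Function.update τ u (!τ u)) =
      2 * sg (τ u) * ∑ v ∈ nbr u, Jc J u v * sg (τ v) := by
  classical
  set τ' := Function.update τ u (!τ u) with hτ'
  have hsub : (nbr u).image (fun v => s(u, v)) ⊆ edgesOf Λ := by
    intro e he
    obtain ⟨v, hv, rfl⟩ := Finset.mem_image.mp he
    exact Basic.mem_edgesOf.mpr ⟨u, hu, v, Basic.mem_nbr.mp hv, rfl⟩
  have h1 : ham J Λ τ - ham J Λ τ' = ∑ e ∈ edgesOf Λ, (bond J τ e - bond J τ' e) := by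
    unfold ham; rw [Finset.sum_sub_distrib]
  have h2 : ∑ e ∈ edgesOf Λ, (bond J τ e - bond J τ' e) =
      ∑ e ∈ (nbr u).image (fun v => s(u, v)), (bond J τ e - bond J τ' e) := by
    symm
    apply Finset.sum_subset hsub
    intro e he hne
    obtain ⟨x, hx, y, hy, rfl⟩ := Basic.mem_edgesOf.mp he
    have hxu : x ≠ u := by
      rintro rfl
      exact hne (Finset.mem_image.mpr ⟨y, Basic.mem_nbr.mpr hy, rfl⟩)
    have hyu : y ≠ u := by
      rintro rfl
      exact hne (Finset.mem_image.mpr ⟨x, Basic.mem_nbr.mpr (by rw [Basic.dist1_comm]; exact hy),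
        Sym2.eq_swap⟩)
    rw [Basic.bond_mk, Basic.bond_mk, hτ', Function.update_of_ne hxu, Function.update_of_ne hyu,
      sub_self]
  rw [h1, h2, Finset.sum_image (by
    intro v hv w hw hvw
    simp only at hvw
    rcases Sym2.eq_iff.mp hvw with ⟨-, h⟩ | ⟨h3, h4⟩
    · exact h
    · rw [h4, ← h3]), Finset.mul_sum]
  apply Finset.sum_congr rfl
  intro v hv
  have hvu : v ≠ u := by
    rintro rfl
    have := Basic.mem_nbr.mp hv
    rw [dist1_self] at this
    omega
  rw [Basic.bond_mk, Basic.bond_mk, hτ', Function.update_self, Function.update_of_ne hvu]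
  have : sg (!τ u) = -sg (τ u) := by cases τ u <;> simp [sg]
  rw [this]
  ring

open Pool.Agent.Helper580.IsingLat in
lemma mem_nbr_iff {x y : Site d} : y ∈ nbr x ↔ y ∈ nb x := by
  rw [Basic.mem_nbr, ← l1_iff]
  have : (∑ i, |x i - y i|) = ((dist1 x y : ℕ) : ℤ) := by
    unfold dist1
    push_cast
    rfl
  rw [this]
  norm_cast

open Pool.Agent.Helper580.IsingLat in
/-- sums over the neighbours -/
lemma sum_nbr (x : Site d) (g : Site d → ℝ) :
    ∑ v ∈ nbr x, g v = ∑ i, (g (x + uv i) + g (x - uv i)) := by
  classical
  have h1 : nbr x = (Finset.univ : Finset (Fin d)).image (fun i => x + uv i) ∪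
      (Finset.univ : Finset (Fin d)).image (fun i => x - uv i) := by
    ext y
    rw [mem_nbr_iff]
    rfl
  have hinj : ∀ i j : Fin d, (uv i : Fin d → ℤ) = uv j → i = j := by
    intro i j h
    by_contra hij
    have := congrFun h i
    simp [uv, hij] at this
  rw [h1, Finset.sum_union, Finset.sum_image, Finset.sum_image, Finset.sum_add_distrib]
  · intro i _ j _ h
    exact hinj i j (by simpa using h)
  · intro i _ j _ h
    exact hinj i j (by simpa using h)
  · rw [Finset.disjoint_left]
    intro y hy hy'
    obtain ⟨i, -, rfl⟩ := Finset.mem_image.mp hy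
    obtain ⟨j, -, h⟩ := Finset.mem_image.mp hy'
    have h2 := congrFun h i
    simp only [Pi.sub_apply, Pi.add_apply, uv] at h2
    by_cases hij : i = j
    · subst hij; rw [Pi.single_eq_same] at h2; omega
    · rw [Pi.single_eq_same, Pi.single_eq_of_ne hij] at h2; omega

end Pool.Agent.K9h1.EA
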