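import Pool.Agent.K9h1.EA.Box

/-!
# Gauge transformations
-/

set_option autoImplicit false

namespace Pool.Agent.K9h1.EA

open Pool.H47EA Pool.Agent.Helper580.IsingLat

variable {d : ℕ}

lemma sg_beq (a b : Bool) : sg (a == b) = sg a * sg b := by
  cases a <;> cases b <;> norm_num [sg]

/-! ### the gauge transformation -/

/-- twist a configuration -/
def tw (g : Site d → Bool) (σ : Site d → Bool) : Site d → Bool := fun x => σ x == g x

lemma tw_tw (g σ : Site d → Bool) : tw g (tw g σ) = σ := by
  funext x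
  unfold tw
  cases σ x <;> cases g x <;> rfl

/-- twist the couplings -/
def gauge (g : Site d → Bool) (J : Coupling d) : Coupling d := fun e =>
  J e == Sym2.lift ⟨fun x y => (g x == g y), fun x y => by
    show (g x == g y) = (g y == g x)
    cases g x <;> cases g y <;> rfl⟩ e.1

lemma Jc_gauge (g : Site d → Bool) (J : Coupling d) (x y : Site d) :
    Jc (gauge g J) x y = Jc J x y * (sg (g x) * sg (g y)) := by
  unfold Jc
  by_cases h : (lat d).Adj x y
  · rw [dif_pos h, dif_pos h]
    unfold gauge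
    rw [sg_beq]
    congr 1
    show sg (g x == g y) = _
    rw [sg_beq]
  · rw [dif_neg h, dif_neg h, zero_mul]

lemma ham_gauge (g : Site d → Bool) (J : Coupling d) (Λ : Finset (Site d)) (σ : Site d → Bool) :
    ham J Λ (tw g σ) = ham (gauge g J) Λ σ := by
  unfold ham
  apply Finset.sum_congr rfl
  intro e _
  induction e using Sym2.ind with
  | _ x y =>
    rw [Basic.bond_mk, Basic.bond_mk, Jc_gauge]
    unfold tw
    rw [sg_beq, sg_beq]
    ring

lemma glue_tw (g : Site d → Bool) (Λ : Finset (Site d)) (η : Λ → Bool) (τ : Site d → Bool) :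
    glue Λ (fun u => η u == g u.1) (tw g τ) = tw g (glue Λ η τ) := by
  funext x
  by_cases hx : x ∈ Λ
  · rw [Basic.glue_mem _ _ hx]
    unfold tw
    rw [Basic.glue_mem _ _ hx]
  · rw [Basic.glue_not_mem _ _ hx]
    unfold tw
    rw [Basic.glue_not_mem _ _ hx]

/-- twist of the spins in the box -/
def twE (g : Site d → Bool) (Λ : Finset (Site d)) : (Λ → Bool) ≃ (Λ → Bool) :=
  Function.Involutive.toPerm (fun η u => η u == g u.1) (by
    intro η
    funext u
    simp only
    cases η u <;> cases g u.1 <;> rfl)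

lemma gE_gauge (g : Site d → Bool) (β : ℝ) (J : Coupling d) (Λ : Finset (Site d))
    (τ : Site d → Bool) (f : (Site d → Bool) → ℝ) :
    gE β J Λ (tw g τ) f = gE β (gauge g J) Λ τ (fun σ => f (tw g σ)) := by
  have h : ∀ F : (Site d → Bool) → ℝ, ∑ η : Λ → Bool, F (glue Λ η (tw g τ)) =
      ∑ η : Λ → Bool, F (tw g (glue Λ η τ)) := by
    intro F
    rw [← Equiv.sum_comp (twE g Λ)]
    apply Finset.sum_congr rfl
    intro η _
    rw [← glue_tw]
    rfl
  unfold gE Zp
  rw [h (fun σ => Real.exp (β * ham J Λ σ)), h (fun σ => Real.exp (β * ham J Λ σ) * f σ)]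
  simp only [ham_gauge]

/-! ### primitives of sign sequences -/

lemma prim (f : ℤ → ℝ) (hf : ∀ k, f k * f k = 1) :
    ∃ F : ℤ → ℝ, F 0 = 1 ∧ (∀ k, F k * F k = 1) ∧ ∀ k, F (k + 1) = F k * f k := by
  let F : ℤ → ℝ := fun k => (∏ j ∈ Finset.Ico 0 k, f j) * ∏ j ∈ Finset.Ico k 0, f j
  refine ⟨F, by simp [F], ?_, ?_⟩
  · intro k
    have : F k * F k = (∏ j ∈ Finset.Ico 0 k, f j * f j) * ∏ j ∈ Finset.Ico k 0, f j * f j := by
      simp only [F, Finset.prod_mul_distrib]
      ring
    rw [this]
    simp [hf]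
  · intro k
    by_cases hk : 0 ≤ k
    · have h1 : Finset.Ico (0 : ℤ) (k + 1) = insert k (Finset.Ico 0 k) := by
        ext j; simp only [Finset.mem_Ico, Finset.mem_insert]; omega
      have h2 : Finset.Ico (k + 1) (0 : ℤ) = ∅ := Finset.Ico_eq_empty_of_le (by omega)
      have h3 : Finset.Ico k (0 : ℤ) = ∅ := Finset.Ico_eq_empty_of_le hk
      simp only [F]
      rw [h1, h2, h3, Finset.prod_insert (by simp)]
      simp only [Finset.prod_empty]
      ring
    · push Not at hk
      have h1 : Finset.Ico k (0 : ℤ) = insert k (Finset.Ico (k + 1) 0) := by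
        ext j; simp only [Finset.mem_Ico, Finset.mem_insert]; omega
      have h2 : Finset.Ico (0 : ℤ) (k + 1) = ∅ := Finset.Ico_eq_empty_of_le (by omega)
      have h3 : Finset.Ico (0 : ℤ) k = ∅ := Finset.Ico_eq_empty_of_le hk.le
      simp only [F]
      rw [h1, h2, h3, Finset.prod_insert (by simp)]
      simp only [Finset.prod_empty]
      linear_combination (-(∏ x ∈ Finset.Ico (k + 1) 0, f x)) * hf k

/-- a potential along the direction `i` -/
lemma pot (J : Coupling d) (i : Fin d) (hJ : ∀ x, Jc J x (x + uv i) * Jc J x (x + uv i) = 1) :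
    ∃ F : Site d → ℝ, (∀ x, x i = 0 → F x = 1) ∧ (∀ x, F x * F x = 1) ∧
      ∀ x, F (x + uv i) = F x * Jc J x (x + uv i) := by
  choose F h0 h1 h2 using fun x : Site d => prim
    (fun k => Jc J (Function.update x i k) (Function.update x i k + uv i)) (fun k => hJ _)
  refine ⟨fun x => F (Function.update x i 0) (x i), ?_, fun x => h1 _ _, ?_⟩
  · intro x hx
    show F (Function.update x i 0) (x i) = 1
    rw [hx]; exact h0 _
  · intro x
    show F (Function.update (x + uv i) i 0) ((x + uv i) i) = F (Function.update x i 0) (x i) * _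
    have e1 : Function.update (x + uv i) i 0 = Function.update x i 0 := by
      funext j
      by_cases hj : j = i
      · subst hj; simp
      · simp [hj, uv]
    have e2 : (x + uv i) i = x i + 1 := by simp [uv]
    rw [e1, e2, h2]
    congr 1
    have e3 : Function.update (Function.update x i 0) i (x i) = x := by simp
    rw [e3]

/-- the product of the couplings around a unit square -/
noncomputable def plaq (J : Coupling d) (x : Site d) (i j : Fin d) : ℝ :=
  Jc J x (x + uv i) * Jc J (x + uv i) (x + uv i + uv j) *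
    Jc J (x + uv i + uv j) (x + uv j) * Jc J (x + uv j) x

lemma adj_uv (x : Site d) (i : Fin d) : (lat d).Adj x (x + uv i) := by
  have : x + uv i ∈ nbr x := mem_nbr_iff.mpr (mem_nb.mpr ⟨i, Or.inl rfl⟩)
  exact Basic.mem_nbr.mp this

lemma Jc_sq (J : Coupling d) {x y : Site d} (h : (lat d).Adj x y) : Jc J x y * Jc J x y = 1 := by
  unfold Jc
  rw [dif_pos h]
  exact sg_mul_self _

lemma Jc_uv_sq (J : Coupling d) (x : Site d) (i : Fin d) :
    Jc J x (x + uv i) * Jc J x (x + uv i) = 1 := Jc_sq J (adj_uv x i)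

/-- invariance under all integer translations -/
lemma inv_all {P : Site d → ℝ} {i : Fin d} (h : ∀ x, P (x + uv i) = P x) (k : ℤ) :
    ∀ x, P (x + k • uv i) = P x := by
  induction k using Int.induction_on with
  | zero => intro x; simp
  | succ k ih =>
    intro x
    have e : x + ((k : ℤ) + 1) • uv i = (x + uv i) + (k : ℤ) • uv i := by
      rw [add_smul, one_smul]; abel
    rw [e, ih, h]
  | pred k ih =>
    intro x
    have e : x + (-(k : ℤ) - 1) • uv i + uv i = x + (-(k : ℤ)) • uv i := by
      rw [sub_smul, one_smul]; abel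
    rw [← h, e, ih]

/-- gauge fixing -/
theorem gauge_fix (J : Coupling d) {i0 i1 : Fin d} (hne : i0 ≠ i1)
    (hJ : ∀ x, ∀ i j, i ≠ j → (i = i0 ∨ i = i1) → plaq J x i j = 1) :
    ∃ g : Site d → Bool, Flat (gauge g J) i0 i1 := by
  obtain ⟨F0, a0, a1, a2⟩ := pot J i0 (fun x => Jc_uv_sq J x i0)
  obtain ⟨F1, b0, b1, b2⟩ := pot J i1 (fun x => Jc_uv_sq J x i1)
  let G : Site d → ℝ := fun x => F0 (Function.update x i1 0) * F1 x
  have hG2 : ∀ x, G x * G x = 1 := by
    intro x
    show F0 (Function.update x i1 0) * F1 x * (F0 (Function.update x i1 0) * F1 x) = 1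
    linear_combination (F1 x * F1 x) * a1 (Function.update x i1 0) + b1 x
  have hG1 : ∀ x, G (x + uv i1) = G x * Jc J x (x + uv i1) := by
    intro x
    show F0 (Function.update (x + uv i1) i1 0) * F1 (x + uv i1) = _
    have e1 : Function.update (x + uv i1) i1 0 = Function.update x i1 0 := by
      funext j
      by_cases hj : j = i1
      · subst hj; simp
      · simp [hj, uv]
    rw [e1, b2]
    show _ = F0 (Function.update x i1 0) * F1 x * _
    ring
  -- the other direction
  let D : Site d → ℝ := fun x => G x * G (x + uv i0) * Jc J x (x + uv i0)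
  have hD0 : ∀ x, x i1 = 0 → D x = 1 := by
    intro x hx
    have hx' : (x + uv i0) i1 = 0 := by simp [uv, hx, Ne.symm hne]
    have u1 : Function.update x i1 0 = x := by rw [← hx]; simp
    have u2 : Function.update (x + uv i0) i1 0 = x + uv i0 :=
      (congrArg (Function.update (x + uv i0) i1) hx'.symm).trans (Function.update_eq_self _ _)
    show F0 (Function.update x i1 0) * F1 x * (F0 (Function.update (x + uv i0) i1 0) *
      F1 (x + uv i0)) * Jc J x (x + uv i0) = 1
    rw [u1, u2, b0 x hx, b0 _ hx', a2]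
    have h1 := a1 x
    have h2 := Jc_uv_sq J x i0
    linear_combination (Jc J x (x + uv i0) * Jc J x (x + uv i0)) * h1 + h2
  have hD1 : ∀ x, D (x + uv i1) = D x := by
    intro x
    have hp := hJ x i0 i1 hne (Or.inl rfl)
    unfold plaq at hp
    have e : x + uv i1 + uv i0 = x + uv i0 + uv i1 := by abel
    show G (x + uv i1) * G (x + uv i1 + uv i0) * Jc J (x + uv i1) (x + uv i1 + uv i0) =
      G x * G (x + uv i0) * Jc J x (x + uv i0)
    rw [e, hG1, hG1]
    have s1 := Jc_uv_sq J x i0
    have s2 : Jc J (x + uv i0 + uv i1) (x + uv i1) = Jc J (x + uv i1) (x + uv i0 + uv i1) :=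
      Jc_comm J _ _
    have s3 : Jc J (x + uv i1) x = Jc J x (x + uv i1) := Jc_comm J _ _
    rw [s2, s3] at hp
    linear_combination (G x * G (x + uv i0) * Jc J x (x + uv i0)) * hp -
      (G x * G (x + uv i0) * Jc J x (x + uv i1) * Jc J (x + uv i0) (x + uv i0 + uv i1) *
        Jc J (x + uv i1) (x + uv i0 + uv i1)) * s1
  have hD : ∀ x, D x = 1 := by
    intro x
    rw [← inv_all hD1 (-(x i1)) x]
    apply hD0
    simp [uv]
  let g : Site d → Bool := fun x => decide (G x = 1)
  have hg : ∀ x, sg (g x) = G x := by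
    intro x
    have h1 : (G x - 1) * (G x + 1) = 0 := by linear_combination hG2 x
    rcases mul_eq_zero.mp h1 with h | h
    · have h2 : G x = 1 := by linarith
      simp [g, h2, sg]
    · have h2 : G x = -1 := by linarith
      simp only [g, h2, sg]
      norm_num
  have k0 : ∀ x, Jc (gauge g J) x (x + uv i0) = 1 := by
    intro x
    rw [Jc_gauge, hg, hg]
    have := hD x
    simp only [D] at this
    linarith
  have k1 : ∀ x, Jc (gauge g J) x (x + uv i1) = 1 := by
    intro x
    rw [Jc_gauge, hg, hg, hG1]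
    have h1 := hG2 x
    have h2 := Jc_uv_sq J x i1
    linear_combination (Jc J x (x + uv i1) * Jc J x (x + uv i1)) * h1 + h2
  -- squares
  have hsq : ∀ i, (i = i0 ∨ i = i1) → (∀ x, Jc (gauge g J) x (x + uv i) = 1) →
      ∀ x j, Jc (gauge g J) (x + uv i) (x + uv i + uv j) = Jc (gauge g J) x (x + uv j) := by
    intro i hi hone x j
    by_cases hij : i = j
    · subst hij; rw [hone, hone]
    · have hp := hJ x i j hij hi
      have hp' : plaq (gauge g J) x i j = 1 := by
        unfold plaq at hp ⊢
        rw [Jc_gauge, Jc_gauge, Jc_gauge, Jc_gauge]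
        have q1 := sg_mul_self (g x)
        have q2 := sg_mul_self (g (x + uv i))
        have q3 := sg_mul_self (g (x + uv i + uv j))
        have q4 := sg_mul_self (g (x + uv j))
        calc _ = (Jc J x (x + uv i) * Jc J (x + uv i) (x + uv i + uv j) *
              Jc J (x + uv i + uv j) (x + uv j) * Jc J (x + uv j) x) *
              (sg (g x) * sg (g x)) * (sg (g (x + uv i)) * sg (g (x + uv i))) *
              (sg (g (x + uv i + uv j)) * sg (g (x + uv i + uv j))) *
              (sg (g (x + uv j)) * sg (g (x + uv j))) := by ring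
          _ = 1 := by rw [q1, q2, q3, q4, hp]; ring
      unfold plaq at hp'
      have e : x + uv i + uv j = x + uv j + uv i := by abel
      rw [hone x, one_mul] at hp'
      rw [show Jc (gauge g J) (x + uv i + uv j) (x + uv j) = 1 by
        rw [Jc_comm, e]; exact hone _, mul_one, Jc_comm (gauge g J) (x + uv j) x] at hp'
      have s := Jc_uv_sq (gauge g J) x j
      linear_combination (Jc (gauge g J) x (x + uv j)) * hp' -
        (Jc (gauge g J) (x + uv i) (x + uv i + uv j)) * s
  have htr : ∀ i, (i = i0 ∨ i = i1) → (∀ x, Jc (gauge g J) x (x + uv i) = 1) →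
      ∀ x y, Jc (gauge g J) (x + uv i) (y + uv i) = Jc (gauge g J) x y := by
    intro i hi hone x y
    by_cases hy : y ∈ nbr x
    · obtain ⟨j, rfl | rfl⟩ := mem_nb.mp (mem_nbr_iff.mp hy)
      · rw [add_right_comm x (uv j) (uv i)]
        exact hsq i hi hone x j
      · have := hsq i hi hone (x - uv j) j
        rw [sub_add_cancel] at this
        rw [Jc_comm (gauge g J) x, Jc_comm (gauge g J) (x + uv i), ← this]
        congr 1
        abel
    · rw [Jc_eq_zero _ hy, Jc_eq_zero]
      intro h
      apply hy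
      rw [Basic.mem_nbr] at h ⊢
      rw [← h]
      unfold dist1
      simp
  exact ⟨g, ⟨hne, k0, k1, htr i0 (Or.inl rfl) k0, htr i1 (Or.inr rfl) k1⟩⟩

/-- magnetising boundary conditions for the original couplings -/
theorem boxJ (J : Coupling d) {i0 i1 : Fin d} (hne : i0 ≠ i1)
    (hJ : ∀ x, ∀ i j, i ≠ j → (i = i0 ∨ i = i1) → plaq J x i j = 1) {β : ℝ} (hβ : 0 ≤ β)
    (hq : qq β ≤ pp ^ 2) (Λ : Finset (Site d)) (h0 : (0 : Site d) ∈ Λ) :
    ∃ τ : Site d → Bool, 1 / 2 ≤ |gE β J Λ τ (fun σ => sg (σ 0))| := by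
  obtain ⟨g, hg⟩ := gauge_fix J hne hJ
  obtain ⟨τ, hτ⟩ := box hg hβ hq Λ h0
  refine ⟨tw g τ, ?_⟩
  rw [gE_gauge]
  have h1 : (fun σ : Site d → Bool => sg (tw g σ 0)) = fun σ => sg (g 0) * sg (σ 0) + 0 * sg (σ 0) := by
    funext σ
    unfold tw
    rw [sg_beq]; ring
  rw [h1, Basic.gE_lin β (gauge g J) Λ τ (fun σ => sg (σ 0)) (fun σ => sg (σ 0)) (sg (g 0)) 0,
    zero_mul, add_zero, abs_mul]
  have : |sg (g 0)| = 1 := by cases g 0 <;> simp [sg]
  rw [this, one_mul]
  exact hτ

end Pool.Agent.K9h1.EA
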