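import Pool.Agent.K9h1.EA.Gauge
import Pool.Agent.H47R2.EA.GIBBSE

/-!
# Two Gibbs states
-/

set_option autoImplicit false

open MeasureTheory Filter Topology
open scoped ENNReal BoundedContinuousFunction

namespace Pool.Agent.K9h1.EA

open Pool.H47EA Pool.H47EA.GIBBSE

variable {d : ℕ}

/-- Gibbs states as limits of finite-volume measures with arbitrary boundary conditions -/
theorem exists_gibbs (β : ℝ) (J : Coupling d) (T : Finset (Site d) → Site d → Bool) :
    ∃ π : Measure (Site d → Bool), IsGibbs β J π ∧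
      ∀ (f : (Site d → Bool) → ℝ), Continuous f → ∀ (c : ℝ) (Λ₀ : Finset (Site d)),
        (∀ Λ, Λ₀ ⊆ Λ → c ≤ gE β J Λ (T Λ) f) → c ≤ ∫ ω, f ω ∂π := by
  let P : Finset (Site d) → ProbabilityMeasure (Site d → Bool) := fun Λ =>
    ⟨KK β J Λ (Measure.dirac (T Λ)), prob_KK β J Λ _⟩
  let U : Ultrafilter (Finset (Site d)) := Ultrafilter.of atTop
  have hU : (U : Filter (Finset (Site d))) ≤ atTop := Ultrafilter.of_le _
  obtain ⟨π, -, hπ⟩ := (isCompact_univ (X := ProbabilityMeasure (Site d → Bool))).ultrafilter_le_nhds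
    (U.map P) (by simp)
  have hlim : Tendsto P U (𝓝 π) := hπ
  have hconv : ∀ f : (Site d → Bool) → ℝ, Continuous f →
      Tendsto (fun Λ => gE β J Λ (T Λ) f) U (𝓝 (∫ ω, f ω ∂(π : Measure (Site d → Bool)))) := by
    intro f hf
    let F : (Site d → Bool) →ᵇ ℝ := BoundedContinuousFunction.mkOfCompact ⟨f, hf⟩
    have h1 := (ProbabilityMeasure.tendsto_iff_forall_integral_tendsto.mp hlim) F
    refine h1.congr fun Λ => ?_
    exact integral_KK_dirac β J Λ (T Λ) f hf.measurable ‖F‖ fun x => F.norm_coe_le_norm x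
  -- invariance
  have hinv : ∀ (Λ : Finset (Site d)) (f : (Site d → Bool) → ℝ), Continuous f →
      ∫ ω, gE β J Λ ω f ∂(π : Measure (Site d → Bool)) =
        ∫ ω, f ω ∂(π : Measure (Site d → Bool)) := by
    intro Λ f hf
    have h1 := hconv f hf
    have h2 := hconv (fun ω => gE β J Λ ω f) (continuous_gE β J Λ f hf)
    refine tendsto_nhds_unique h2 (h1.congr' ?_)
    have h3 : ∀ᶠ Λ' in (U : Filter (Finset (Site d))), Λ ⊆ Λ' := hU (eventually_ge_atTop Λ)
    filter_upwards [h3] with Λ' hΛ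
    exact Basic.gE_cons hΛ β J (T Λ') f
  have hK : ∀ Λ : Finset (Site d), KK β J Λ (π : Measure (Site d → Bool)) =
      (π : Measure (Site d → Bool)) := by
    intro Λ
    have := prob_KK β J Λ (π : Measure (Site d → Bool))
    haveI : TopologicalSpace.MetrizableSpace (Site d → Bool) :=
      TopologicalSpace.metrizableSpace_of_t3_secondCountable _
    letI : MetricSpace (Site d → Bool) := TopologicalSpace.metrizableSpaceMetric _
    apply ext_of_forall_integral_eq_of_IsFiniteMeasure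
    intro f
    rw [integral_KK β J Λ _ f f.continuous.measurable ‖f‖ fun x => f.norm_coe_le_norm x]
    exact hinv Λ f f.continuous
  refine ⟨π, ⟨inferInstance, ?_⟩, ?_⟩
  · intro a b A hA
    have hind : Measurable (A.indicator fun _ => (1 : ℝ)) := measurable_const.indicator hA
    have h1 := integral_KK β J (Finset.Icc a b) (π : Measure (Site d → Bool))
      (A.indicator fun _ => (1 : ℝ)) hind 1 (by
        intro x
        by_cases hx : x ∈ A
        · simp [hx]
        · simp [hx])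
    rw [← h1, hK, integral_indicator hA]
    simp [Measure.real]
  · intro f hf c Λ₀ hc
    have h3 : ∀ᶠ Λ' in (U : Filter (Finset (Site d))), Λ₀ ⊆ Λ' := hU (eventually_ge_atTop Λ₀)
    refine ge_of_tendsto (hconv f hf) ?_
    filter_upwards [h3] with Λ' hΛ
    exact hc Λ' hΛ

lemma gauge_false (J : Coupling d) : gauge (fun _ => false) J = J := by
  funext e
  obtain ⟨e, he⟩ := e
  induction e using Sym2.ind with
  | _ x y =>
    unfold gauge
    show (J _ == (false == false)) = J _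
    cases J ⟨s(x, y), he⟩ <;> rfl

/-- two Gibbs states from magnetising boundary conditions -/
theorem two_gibbs {β : ℝ} {J : Coupling d} {c : ℝ} (hc : 0 < c)
    (h : ∀ Λ : Finset (Site d), (0 : Site d) ∈ Λ →
      ∃ τ : Site d → Bool, c ≤ |gE β J Λ τ (fun σ => sg (σ 0))|) :
    ∃ π π' : Measure (Site d → Bool), π ≠ π' ∧ IsGibbs β J π ∧ IsGibbs β J π' := by
  -- the global flip
  have hflip : ∀ (Λ : Finset (Site d)) (τ : Site d → Bool),
      gE β J Λ (tw (fun _ => false) τ) (fun σ => sg (σ 0)) = -gE β J Λ τ (fun σ => sg (σ 0)) := by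
    intro Λ τ
    rw [gE_gauge, gauge_false]
    have h1 : (fun σ : Site d → Bool => sg (tw (fun _ => false) σ 0)) =
        fun σ => (-1) * sg (σ 0) + 0 * sg (σ 0) := by
      funext σ
      unfold tw
      rw [sg_beq, show sg false = -1 by simp [sg]]
      ring
    rw [h1, Basic.gE_lin β J Λ τ (fun σ => sg (σ 0)) (fun σ => sg (σ 0)) (-1) 0]
    ring
  have h' : ∀ Λ : Finset (Site d), ∃ τ : Site d → Bool, (0 : Site d) ∈ Λ →
      c ≤ gE β J Λ τ (fun σ => sg (σ 0)) := by
    intro Λ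
    by_cases h0 : (0 : Site d) ∈ Λ
    · obtain ⟨τ, hτ⟩ := h Λ h0
      rcases le_abs.mp hτ with h1 | h1
      · exact ⟨τ, fun _ => h1⟩
      · exact ⟨tw (fun _ => false) τ, fun _ => by rw [hflip]; exact h1⟩
    · exact ⟨fun _ => true, fun h1 => absurd h1 h0⟩
  choose T hT using h'
  obtain ⟨π, hπ, hπ'⟩ := exists_gibbs β J T
  obtain ⟨π₂, hπ₂, hπ₂'⟩ := exists_gibbs β J (fun Λ => tw (fun _ => false) (T Λ))
  have hcont : Continuous (fun σ : Site d → Bool => sg (σ 0)) :=
    continuous_sg.comp (continuous_apply 0)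
  have e1 : c ≤ ∫ ω, sg (ω 0) ∂π := by
    apply hπ' _ hcont c {0}
    intro Λ hΛ
    exact hT Λ (Finset.singleton_subset_iff.mp hΛ)
  have e2 : c ≤ ∫ ω, -sg (ω 0) ∂π₂ := by
    apply hπ₂' (fun ω => -sg (ω 0)) hcont.neg c {0}
    intro Λ hΛ
    have h1 : (fun ω : Site d → Bool => -sg (ω 0)) = fun σ => (-1) * sg (σ 0) + 0 * sg (σ 0) := by
      funext σ; ring
    rw [h1, Basic.gE_lin β J Λ _ (fun σ => sg (σ 0)) (fun σ => sg (σ 0)) (-1) 0, hflip]
    have := hT Λ (Finset.singleton_subset_iff.mp hΛ)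
    linarith
  refine ⟨π, π₂, ?_, hπ, hπ₂⟩
  rintro rfl
  rw [integral_neg] at e2
  linarith

lemma qq_small {β : ℝ} (hβ : 15 ≤ β) : qq β ≤ pp ^ 2 := by
  unfold qq pp
  have h1 : Real.exp (-(2 * β)) ≤ Real.exp (-30) := Real.exp_le_exp.mpr (by linarith)
  have h2 : Real.exp (-30) ≤ (1 / 2) ^ 43 := by
    rw [Real.exp_neg, show ((1 : ℝ) / 2) ^ 43 = ((2 : ℝ) ^ 43)⁻¹ by rw [one_div, inv_pow]]
    apply inv_anti₀ (by positivity)
    have h3 : (2.7182818283 : ℝ) < Real.exp 1 := Real.exp_one_gt_d9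
    have h4 : Real.exp 30 = Real.exp 1 ^ 30 := by
      rw [← Real.exp_nat_mul]; norm_num
    rw [h4]
    calc (2 : ℝ) ^ 43 ≤ (2.7182818283 : ℝ) ^ 30 := by norm_num
      _ ≤ Real.exp 1 ^ 30 := pow_le_pow_left₀ (by norm_num) h3.le 30
  calc 2 * Real.exp (-(2 * β)) ≤ 2 * (1 / 2) ^ 43 := by linarith
    _ ≤ (1 / 16 * (1 / 2) ^ 17) ^ 2 := by norm_num

/-- **non-uniqueness** -/
theorem main (J : Coupling d) {i0 i1 : Fin d} (hne : i0 ≠ i1)
    (hJ : ∀ x, ∀ i j, i ≠ j → (i = i0 ∨ i = i1) → plaq J x i j = 1) {β : ℝ} (hβ : 15 ≤ β) :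
    ∃ π π' : Measure (Site d → Bool), π ≠ π' ∧ IsGibbs β J π ∧ IsGibbs β J π' :=
  two_gibbs (c := 1 / 2) (by norm_num) fun Λ h0 =>
    boxJ J hne hJ (by linarith) (qq_small hβ) Λ h0

end Pool.Agent.K9h1.EA
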