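import Pool.Agent.K9h1.EA.Est
import Pool.Agent.K9h1.EA.Contour

/-!
# The Peierls argument on the torus
-/

set_option autoImplicit false

namespace Pool.Agent.K9h1.EA

open Pool.H47EA Pool.Agent.Helper580.IsingCut Pool.Agent.Helper580.IsingLat

variable {Y : Type} [Fintype Y] [DecidableEq Y] {n : ℕ}

/-- reduction modulo `n + 1` -/
def cst (n : ℕ) (z : ℤ) : Fin (n + 1) := (z : ZMod (n + 1))

lemma cst_succ (z : ℤ) : cst n (z + 1) = cst n z + 1 := by
  have : ((z + 1 : ℤ) : ZMod (n + 1)) = (z : ZMod (n + 1)) + 1 := by push_cast; ring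
  exact this

lemma cst_inj {z z' : ℤ} (h : cst n z = cst n z') (h1 : z' - z < n + 1) (h2 : z - z' < n + 1) :
    z = z' := by
  have h3 : (z : ZMod (n + 1)) = (z' : ZMod (n + 1)) := h
  rw [ZMod.intCast_eq_intCast_iff_dvd_sub] at h3
  obtain ⟨c, hc⟩ := h3
  push_cast at hc
  have h4 : c = 0 := by
    have h5 : c < 1 := by
      by_contra h
      push Not at h
      nlinarith
    have h6 : -1 < c := by
      by_contra h
      push Not at h
      nlinarith
    omega
  rw [h4, mul_zero] at hc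
  omega

/-- the component `x` of the configuration as a function on `ℤ²` -/
def tt (σ : Cf n Y) (x : Y) (z : Fin 2 → ℤ) : Bool := σ (cst n (z 1)) (cst n (z 0)) x

omit [Fintype Y] [DecidableEq Y] in
lemma bad0 (σ : Cf n Y) (x : Y) (z : Fin 2 → ℤ) :
    bad (tt σ x) (z, 0) ↔ σ (cst n (z 1)) (cst n (z 0)) x ≠ σ (cst n (z 1)) (cst n (z 0) + 1) x := by
  unfold bad tt
  have e0 : (z + uv 0 : Fin 2 → ℤ) 0 = z 0 + 1 := by simp [uv]
  have e1 : (z + uv 0 : Fin 2 → ℤ) 1 = z 1 := by simp [uv]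
  simp only [e0, e1, cst_succ]

omit [Fintype Y] [DecidableEq Y] in
lemma bad1 (σ : Cf n Y) (x : Y) (z : Fin 2 → ℤ) :
    bad (tt σ x) (z, 1) ↔ σ (cst n (z 1)) (cst n (z 0)) x ≠ σ (cst n (z 1) + 1) (cst n (z 0)) x := by
  unfold bad tt
  have e0 : (z + uv 1 : Fin 2 → ℤ) 0 = z 0 := by simp [uv]
  have e1 : (z + uv 1 : Fin 2 → ℤ) 1 = z 1 + 1 := by simp [uv]
  simp only [e0, e1, cst_succ]

/-- a given set of disagreements -/
theorem est_T (hn : Even (n + 1)) (h : (Y → Bool) → ℝ) (hh : ∀ ω, h (fun y => !ω y) = h ω) {β : ℝ}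
    (hβ : 0 ≤ β) (x : Y) {p : ℝ} (hp0 : 0 ≤ p) (hp1 : p ≤ 1) (hp : qq β ≤ p ^ 2) {T : Finset E2}
    (hT : ∀ u ∈ T, ∀ v ∈ T, ∀ i, v.1 i - u.1 i < n + 1) :
    ∑ σ : Cf n Y, (if ∀ e ∈ T, bad (tt σ x) e then W n h β σ else 0) ≤ p ^ T.card * ZZ n h β := by
  classical
  have hZ := (ZZ_pos (n := n) h β).le
  have hq := (qq_pos β).le
  let Th := T.filter (fun e => e.2 = 0)
  let Tv := T.filter (fun e => ¬ e.2 = 0)
  have hcard : Th.card + Tv.card = T.card := Finset.card_filter_add_card_filter_not _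
  have hA : ∀ c : ℕ, T.card ≤ 2 * c → qq β ^ c ≤ p ^ T.card := by
    intro c hc
    calc qq β ^ c ≤ (p ^ 2) ^ c := pow_le_pow_left₀ hq hp c
      _ = p ^ (2 * c) := by rw [← pow_mul]
      _ ≤ p ^ T.card := pow_le_pow_of_le_one hp0 hp1 hc
  by_cases hc : T.card ≤ 2 * Th.card
  · let A := Th.image (fun e : E2 => (cst n (e.1 1), cst n (e.1 0)))
    have hAc : A.card = Th.card := by
      apply Finset.card_image_of_injOn
      intro u hu v hv huv
      rw [Finset.mem_coe, Finset.mem_filter] at hu hv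
      simp only [Prod.mk.injEq] at huv
      apply Prod.ext
      · funext i
        fin_cases i
        · exact cst_inj huv.2 (hT u hu.1 v hv.1 0) (hT v hv.1 u hu.1 0)
        · exact cst_inj huv.1 (hT u hu.1 v hv.1 1) (hT v hv.1 u hu.1 1)
      · rw [hu.2, hv.2]
    have h1 := est_h hn h hh hβ x A
    rw [hAc] at h1
    refine (Finset.sum_le_sum fun σ _ => ?_).trans (h1.trans
      (mul_le_mul_of_nonneg_right (hA _ hc) hZ))
    split_ifs with h2 h3
    · exact le_refl _
    · exfalso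
      apply h3
      intro q hq
      obtain ⟨e, he, rfl⟩ := Finset.mem_image.mp hq
      rw [Finset.mem_filter] at he
      have h4 := h2 e he.1
      have h5 : e = (e.1, 0) := Prod.ext rfl he.2
      rw [h5, bad0] at h4
      exact h4
    · exact (W_pos _ _ _).le
    · exact le_refl _
  · have hc' : T.card ≤ 2 * Tv.card := by omega
    let A := Tv.image (fun e : E2 => (cst n (e.1 0), cst n (e.1 1)))
    have hv1 : ∀ e ∈ Tv, e ∈ T ∧ e.2 = 1 := by
      intro e he
      rw [Finset.mem_filter] at he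
      refine ⟨he.1, ?_⟩
      have := he.2
      omega
    have hAc : A.card = Tv.card := by
      apply Finset.card_image_of_injOn
      intro u hu v hv huv
      obtain ⟨hu, hu1⟩ := hv1 u hu
      obtain ⟨hv, hv1⟩ := hv1 v hv
      simp only [Prod.mk.injEq] at huv
      apply Prod.ext
      · funext i
        fin_cases i
        · exact cst_inj huv.1 (hT u hu v hv 0) (hT v hv u hu 0)
        · exact cst_inj huv.2 (hT u hu v hv 1) (hT v hv u hu 1)
      · rw [hu1, hv1]
    have h1 := est_v hn h hh hβ x A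
    rw [hAc] at h1
    refine (Finset.sum_le_sum fun σ _ => ?_).trans (h1.trans
      (mul_le_mul_of_nonneg_right (hA _ hc') hZ))
    split_ifs with h2 h3
    · exact le_refl _
    · exfalso
      apply h3
      intro q hq
      obtain ⟨e, he, rfl⟩ := Finset.mem_image.mp hq
      obtain ⟨he, he1⟩ := hv1 e he
      have h4 := h2 e he
      have h5 : e = (e.1, 1) := Prod.ext rfl he1
      rw [h5, bad1] at h4
      exact h4
    · exact (W_pos _ _ _).le
    · exact le_refl _

/-- the window -/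
noncomputable def win (L : ℕ) : Finset E2 :=
  (Finset.Icc (fun _ => -(L : ℤ)) (fun _ => (L : ℤ))) ×ˢ Finset.univ

open Classical in
/-- connected sets containing the edge number `j` of the axis, with sizes between `r` and `m + 1` -/
noncomputable def Fam (L m j r : ℕ) : Finset (Finset E2) :=
  (win L).powerset.filter (fun T => CC pn T ∧ (xx j, (0 : Fin 2)) ∈ T ∧ r ≤ T.card ∧ T.card ≤ m + 1)

/-- the weight per edge -/
noncomputable def pp : ℝ := (1 / 16) * (1 / 2) ^ 17

lemma mem_Fam {L m j r : ℕ} (hL : j + m + 1 ≤ L) {T : Finset E2} (h1 : CC pn T)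
    (h2 : (xx j, (0 : Fin 2)) ∈ T) (h3 : r ≤ T.card) (h4 : T.card ≤ m + 1) : T ∈ Fam L m j r := by
  classical
  unfold Fam
  rw [Finset.mem_filter, Finset.mem_powerset]
  refine ⟨?_, h1, h2, h3, h4⟩
  intro e he
  unfold win
  rw [Finset.mem_product, Finset.mem_Icc]
  refine ⟨⟨?_, ?_⟩, Finset.mem_univ _⟩
  · intro i
    have h5 := cc_extent h1 he h2 i
    have h6 : (0 : ℤ) ≤ xx j i := by unfold xx; split_ifs <;> omega
    simp only at h5 ⊢
    omega
  · intro i
    have h5 := cc_extent h1 h2 he i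
    have h6 : xx j i ≤ j := by unfold xx; split_ifs <;> omega
    simp only at h5 ⊢
    omega

lemma sum_Fam (L m j r : ℕ) : ∑ T ∈ Fam L m j r, pp ^ T.card ≤ (1 / 16) ^ r := by
  classical
  have h1 := count pn 16 (fun u => card_pn u) (xx j, (0 : Fin 2)) (Fam L m j r)
    (fun T hT => by unfold Fam at hT; rw [Finset.mem_filter] at hT; exact hT.2.2.1)
    (fun T hT => by unfold Fam at hT; rw [Finset.mem_filter] at hT; exact hT.2.1)
  calc ∑ T ∈ Fam L m j r, pp ^ T.card
      ≤ ∑ T ∈ Fam L m j r, (1 / 16) ^ r * ((1 : ℝ) / 2) ^ ((16 + 1) * T.card) := by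
        apply Finset.sum_le_sum
        intro T hT
        unfold Fam at hT
        rw [Finset.mem_filter] at hT
        unfold pp
        rw [mul_pow, ← pow_mul]
        apply mul_le_mul_of_nonneg_right _ (by positivity)
        exact pow_le_pow_of_le_one (by norm_num) (by norm_num) hT.2.2.2.1
    _ = (1 / 16) ^ r * ∑ T ∈ Fam L m j r, ((1 : ℝ) / 2) ^ ((16 + 1) * T.card) := by
        rw [Finset.mul_sum]
    _ ≤ (1 / 16) ^ r * 1 := mul_le_mul_of_nonneg_left h1 (by positivity)
    _ = _ := mul_one _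

lemma geom16 (m : ℕ) : ∑ a ∈ Finset.range m, ((1 : ℝ) / 16) ^ (a + 1) ≤ 1 / 15 := by
  have : ∀ m : ℕ, ∑ a ∈ Finset.range m, ((1 : ℝ) / 16) ^ (a + 1) = (1 - (1 / 16) ^ m) / 15 := by
    intro m
    induction m with
    | zero => simp
    | succ m ih =>
      rw [Finset.sum_range_succ, ih, pow_succ]
      ring
  rw [this]
  have : (0 : ℝ) ≤ (1 / 16) ^ m := by positivity
  linarith

/-- **Peierls estimate** -/
theorem peierls (hn : Even (n + 1)) (h : (Y → Bool) → ℝ) (hh : ∀ ω, h (fun y => !ω y) = h ω)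
    {β : ℝ} (hβ : 0 ≤ β) (hq : qq β ≤ pp ^ 2) (x : Y) (k m : ℕ) (hm : m ≤ n) :
    ∑ σ : Cf n Y, (if tt σ x (xx 0) ≠ tt σ x (xx k) then W n h β σ else 0) ≤
      ((k : ℝ) * (1 / 16) ^ (m + 1) + 2 / 15) * ZZ n h β := by
  classical
  set L := k + 2 * m + 2 with hL
  let P : Finset E2 → ℝ := fun T =>
    ∑ σ : Cf n Y, (if ∀ e ∈ T, bad (tt σ x) e then W n h β σ else 0)
  have hZ := (ZZ_pos (n := n) h β).le
  have hpp0 : 0 ≤ pp := by unfold pp; positivity
  have hpp1 : pp ≤ 1 := by unfold pp; norm_num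
  have hP : ∀ j r, ∑ T ∈ Fam L m j r, P T ≤ (1 / 16) ^ r * ZZ n h β := by
    intro j r
    calc ∑ T ∈ Fam L m j r, P T ≤ ∑ T ∈ Fam L m j r, pp ^ T.card * ZZ n h β := by
          apply Finset.sum_le_sum
          intro T hT
          unfold Fam at hT
          rw [Finset.mem_filter] at hT
          apply est_T hn h hh hβ x hpp0 hpp1 hq
          intro u hu v hv i
          have h1 := cc_extent hT.2.1 hu hv i
          have h2 := hT.2.2.2.2
          have h3 : (T.card : ℤ) ≤ n + 1 := by exact_mod_cast h2.trans (by omega)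
          omega
      _ = (∑ T ∈ Fam L m j r, pp ^ T.card) * ZZ n h β := by rw [Finset.sum_mul]
      _ ≤ _ := mul_le_mul_of_nonneg_right (sum_Fam L m j r) hZ
  have hterm : ∀ (σ : Cf n Y) (T : Finset E2),
      0 ≤ (if ∀ e ∈ T, bad (tt σ x) e then W n h β σ else 0) := by
    intro σ T
    split_ifs
    · exact (W_pos _ _ _).le
    · exact le_refl _
  -- union bound
  have hmain : ∑ σ : Cf n Y, (if tt σ x (xx 0) ≠ tt σ x (xx k) then W n h β σ else 0) ≤
      (∑ j ∈ Finset.range k, ∑ T ∈ Fam L m j (m + 1), P T) +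
      ((∑ a ∈ Finset.range m, ∑ T ∈ Fam L m (0 + a) (a + 1), P T) +
        ∑ a ∈ Finset.range m, ∑ T ∈ Fam L m (k + a) (a + 1), P T) := by
    have hswap : ∀ (s : Finset ℕ) (J R : ℕ → ℕ), ∑ a ∈ s, ∑ T ∈ Fam L m (J a) (R a), P T =
        ∑ σ : Cf n Y, ∑ a ∈ s, ∑ T ∈ Fam L m (J a) (R a),
          (if ∀ e ∈ T, bad (tt σ x) e then W n h β σ else 0) := by
      intro s J R
      rw [Finset.sum_comm]
      apply Finset.sum_congr rfl
      intro a _
      rw [Finset.sum_comm]
    rw [hswap (Finset.range k) (fun j => j) (fun _ => m + 1),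
      hswap (Finset.range m) (fun a => 0 + a) (fun a => a + 1),
      hswap (Finset.range m) (fun a => k + a) (fun a => a + 1), ← Finset.sum_add_distrib,
      ← Finset.sum_add_distrib]
    apply Finset.sum_le_sum
    intro σ _
    have hnn : ∀ (s : Finset ℕ) (J R : ℕ → ℕ), 0 ≤ ∑ a ∈ s, ∑ T ∈ Fam L m (J a) (R a),
          (if ∀ e ∈ T, bad (tt σ x) e then W n h β σ else 0) := fun s J R =>
      Finset.sum_nonneg fun a _ => Finset.sum_nonneg fun T _ => hterm σ T
    have hge : ∀ (s : Finset ℕ) (J R : ℕ → ℕ) (a : ℕ) (T : Finset E2), a ∈ s →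
        T ∈ Fam L m (J a) (R a) → (∀ e ∈ T, bad (tt σ x) e) →
        W n h β σ ≤ ∑ a ∈ s, ∑ T ∈ Fam L m (J a) (R a),
          (if ∀ e ∈ T, bad (tt σ x) e then W n h β σ else 0) := by
      intro s J R a T ha hT hb
      calc W n h β σ = (if ∀ e ∈ T, bad (tt σ x) e then W n h β σ else 0) := by rw [if_pos hb]
        _ ≤ ∑ T ∈ Fam L m (J a) (R a),
            (if ∀ e ∈ T, bad (tt σ x) e then W n h β σ else 0) :=
            Finset.single_le_sum (f := fun T => (if ∀ e ∈ T, bad (tt σ x) e then W n h β σ else 0))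
              (fun T _ => hterm σ T) hT
        _ ≤ _ := Finset.single_le_sum (f := fun a => ∑ T ∈ Fam L m (J a) (R a),
            (if ∀ e ∈ T, bad (tt σ x) e then W n h β σ else 0))
            (fun a _ => Finset.sum_nonneg fun T _ => hterm σ T) ha
    have n1 := hnn (Finset.range k) (fun j => j) (fun _ => m + 1)
    have n2 := hnn (Finset.range m) (fun a => 0 + a) (fun a => a + 1)
    have n3 := hnn (Finset.range m) (fun a => k + a) (fun a => a + 1)
    split_ifs with hd
    · rcases contour hd m with ⟨j, hj, T, hT, hc⟩ | ⟨c, hc, a, T, hT, ha, hTm⟩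
      · have := hge (Finset.range k) (fun j => j) (fun _ => m + 1) j T (Finset.mem_range.mpr hj)
          (mem_Fam (by omega) hT.1 hT.2.1 hc.ge hc.le) hT.2.2
        linarith
      · rcases hc with rfl | rfl
        · have := hge (Finset.range m) (fun a => 0 + a) (fun a => a + 1) a T
            (Finset.mem_range.mpr (by omega))
            (mem_Fam (by omega) hT.1 hT.2.1 (by omega) (by omega)) hT.2.2
          linarith
        · have := hge (Finset.range m) (fun a => c + a) (fun a => a + 1) a T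
            (Finset.mem_range.mpr (by omega))
            (mem_Fam (by omega) hT.1 hT.2.1 (by omega) (by omega)) hT.2.2
          linarith
    · linarith
  refine hmain.trans ?_
  have g1 : ∑ j ∈ Finset.range k, ∑ T ∈ Fam L m j (m + 1), P T ≤
      (k : ℝ) * (1 / 16) ^ (m + 1) * ZZ n h β := by
    refine (Finset.sum_le_sum fun j _ => hP j (m + 1)).trans ?_
    rw [Finset.sum_const, Finset.card_range, nsmul_eq_mul, mul_assoc]
  have g2 : ∀ c, ∑ a ∈ Finset.range m, ∑ T ∈ Fam L m (c + a) (a + 1), P T ≤ 1 / 15 * ZZ n h β := by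
    intro c
    refine (Finset.sum_le_sum fun a _ => hP (c + a) (a + 1)).trans ?_
    rw [← Finset.sum_mul]
    exact mul_le_mul_of_nonneg_right (geom16 m) hZ
  have g3 := g2 0
  have g4 := g2 k
  calc _ ≤ (k : ℝ) * (1 / 16) ^ (m + 1) * ZZ n h β + (1 / 15 * ZZ n h β + 1 / 15 * ZZ n h β) :=
        add_le_add g1 (add_le_add g3 g4)
    _ = _ := by ring

end Pool.Agent.K9h1.EA
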