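import Pool.Agent.K9h1.EA.TraceChess
import Pool.Agent.H47R2.EA.Defs

/-!
# Chessboard estimates on the two-dimensional torus
-/

set_option autoImplicit false

namespace Pool.Agent.K9h1.EA

open Matrix Pool.H47EA

variable {Y : Type} [Fintype Y] [DecidableEq Y] {n : ℕ}

/-- interaction of two columns -/
noncomputable def S (κ : Y → ℝ) (ω ω' : Y → Bool) : ℝ := ∑ y, κ y * sg (ω y) * sg (ω' y)

omit [DecidableEq Y] in
lemma S_comm (κ : Y → ℝ) (ω ω' : Y → Bool) : S κ ω ω' = S κ ω' ω := by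
  unfold S
  exact Finset.sum_congr rfl fun y _ => by ring

/-- the two vectors of the positive definite kernel -/
noncomputable def vv (κ : ℝ) (u s : Bool) : ℝ :=
  if u then sg s * √(Real.sinh κ) else √(Real.cosh κ)

lemma vv_sum {κ : ℝ} (hκ : 0 ≤ κ) (s t : Bool) :
    ∑ u : Bool, vv κ u s * vv κ u t = Real.exp (κ * sg s * sg t) := by
  have h1 : √(Real.sinh κ) * √(Real.sinh κ) = Real.sinh κ :=
    Real.mul_self_sqrt (Real.sinh_nonneg_iff.mpr hκ)
  have h2 : √(Real.cosh κ) * √(Real.cosh κ) = Real.cosh κ :=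
    Real.mul_self_sqrt (Real.cosh_pos κ).le
  have h3 := Real.cosh_add_sinh κ
  have h4 := Real.cosh_sub_sinh κ
  rw [Fintype.sum_bool]
  unfold vv
  simp only [if_true, Bool.false_eq_true, if_false]
  have e : sg s * √(Real.sinh κ) * (sg t * √(Real.sinh κ)) + √(Real.cosh κ) * √(Real.cosh κ) =
      Real.cosh κ + sg s * sg t * Real.sinh κ := by
    rw [h2]
    calc sg s * √(Real.sinh κ) * (sg t * √(Real.sinh κ)) + Real.cosh κ
        = sg s * sg t * (√(Real.sinh κ) * √(Real.sinh κ)) + Real.cosh κ := by ring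
      _ = _ := by rw [h1]; ring
  rw [e]
  cases s <;> cases t <;> simp only [sg, if_true, Bool.false_eq_true, if_false]
  · rw [show κ * -1 * -1 = κ by ring, ← h3]; ring
  · rw [show κ * -1 * 1 = -κ by ring, ← h4]; ring
  · rw [show κ * 1 * -1 = -κ by ring, ← h4]; ring
  · rw [show κ * 1 * 1 = κ by ring, ← h3]; ring

/-- the square root of the kernel between two rows -/
noncomputable def BB (n : ℕ) (κ : Y → ℝ) :
    Matrix ((Fin (n + 1) × Y) → Bool) (Fin (n + 1) → Y → Bool) ℝ :=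
  Matrix.of fun u r => ∏ c : Fin (n + 1) × Y, vv (κ c.2) (u c) (r c.1 c.2)

lemma BB_mul {κ : Y → ℝ} (hκ : ∀ y, 0 ≤ κ y) (r r' : Fin (n + 1) → Y → Bool) :
    ((BB n κ)ᵀ * BB n κ) r r' = ∏ a, Real.exp (S κ (r a) (r' a)) := by
  have h1 : ∀ a, Real.exp (S κ (r a) (r' a)) = ∏ y, Real.exp (κ y * sg (r a y) * sg (r' a y)) := by
    intro a
    unfold S
    rw [Real.exp_sum]
  rw [Finset.prod_congr rfl fun a _ => h1 a, ← Fintype.prod_prod_type']
  rw [Finset.prod_congr rfl fun (c : Fin (n + 1) × Y) _ =>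
    (vv_sum (hκ c.2) (r c.1 c.2) (r' c.1 c.2)).symm]
  rw [Finset.prod_univ_sum, Fintype.piFinset_univ, Matrix.mul_apply]
  apply Finset.sum_congr rfl
  intro u _
  rw [Matrix.transpose_apply]
  unfold BB
  rw [Matrix.of_apply, Matrix.of_apply, ← Finset.prod_mul_distrib]

/-- the sum over the configurations of the torus, with an arbitrary pattern `s` -/
noncomputable def TT (n : ℕ) (w : Bool → (Y → Bool) → ℝ)
    (e : Bool → (Y → Bool) → (Y → Bool) → ℝ) (κ : Y → ℝ)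
    (s : Fin (n + 1) → Fin (n + 1) → Bool) : ℝ :=
  ∑ σ : Fin (n + 1) → Fin (n + 1) → Y → Bool, ∏ b, ∏ a,
    w (s b a) (σ b a) * e (s b a) (σ b a) (σ b (a + 1)) * Real.exp (S κ (σ b a) (σ (b + 1) a))

theorem rows {w : Bool → (Y → Bool) → ℝ} {e : Bool → (Y → Bool) → (Y → Bool) → ℝ} {κ : Y → ℝ}
    (hw : ∀ c ω, 0 ≤ w c ω) (he : ∀ c ω ω', 0 ≤ e c ω ω') (hκ : ∀ y, 0 ≤ κ y)
    (hn : Even (n + 1)) (s : Fin (n + 1) → Fin (n + 1) → Bool) :
    ∃ p, TT n w e κ s ≤ TT n w e κ (fun _ => p) := by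
  let D : (Fin (n + 1) → Bool) → (Fin (n + 1) → Y → Bool) → ℝ := fun p r =>
    ∏ a, w (p a) (r a) * e (p a) (r a) (r (a + 1))
  have h1 : ∀ s : Fin (n + 1) → Fin (n + 1) → Bool, TT n w e κ s =
      cyc (fun b => Matrix.of fun r r' => D (s b) r * ((BB n κ)ᵀ * BB n κ) r r') := by
    intro s
    unfold TT cyc
    apply Finset.sum_congr rfl
    intro σ _
    apply Finset.prod_congr rfl
    intro b _
    show _ = D (s b) (σ b) * ((BB n κ)ᵀ * BB n κ) (σ b) (σ (b + 1))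
    rw [BB_mul hκ, ← Finset.prod_mul_distrib]
  obtain ⟨p, hp⟩ := psd_chess (BB n κ) (fun r r' => by
      rw [BB_mul hκ]; exact Finset.prod_nonneg fun _ _ => (Real.exp_pos _).le) D
    (fun p r => Finset.prod_nonneg fun a _ => mul_nonneg (hw _ _) (he _ _ _)) hn s
  refine ⟨p, ?_⟩
  rw [h1, h1]
  exact hp

/-- transposition of the torus -/
lemma TT_swap (w : Bool → (Y → Bool) → ℝ) (e : Bool → (Y → Bool) → (Y → Bool) → ℝ) (κ : Y → ℝ)
    (p : Fin (n + 1) → Bool) :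
    TT n w e κ (fun _ => p) = ∑ τ : Fin (n + 1) → Fin (n + 1) → Y → Bool, ∏ a, ∏ b,
      w (p a) (τ a b) * e (p a) (τ a b) (τ (a + 1) b) * Real.exp (S κ (τ a b) (τ a (b + 1))) := by
  unfold TT
  rw [← (Equiv.piComm (fun _ _ : Fin (n + 1) => (Y → Bool))).sum_comp]
  apply Finset.sum_congr rfl
  intro σ _
  rw [Finset.prod_comm]
  rfl

theorem cols_psd {w : Bool → (Y → Bool) → ℝ} {κ : Y → ℝ}
    (hw : ∀ c ω, 0 ≤ w c ω) (hκ : ∀ y, 0 ≤ κ y) (hn : Even (n + 1)) (p : Fin (n + 1) → Bool) :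
    ∃ c, TT n w (fun _ ω ω' => Real.exp (S κ ω ω')) κ (fun _ => p) ≤
      TT n w (fun _ ω ω' => Real.exp (S κ ω ω')) κ (fun _ _ => c) := by
  let D : Bool → (Fin (n + 1) → Y → Bool) → ℝ := fun c r =>
    ∏ b, w c (r b) * Real.exp (S κ (r b) (r (b + 1)))
  have h1 : ∀ p : Fin (n + 1) → Bool,
      TT n w (fun _ ω ω' => Real.exp (S κ ω ω')) κ (fun _ => p) =
      cyc (fun a => Matrix.of fun r r' => D (p a) r * ((BB n κ)ᵀ * BB n κ) r r') := by
    intro p
    rw [TT_swap]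
    unfold cyc
    apply Finset.sum_congr rfl
    intro τ _
    apply Finset.prod_congr rfl
    intro a _
    show _ = D (p a) (τ a) * ((BB n κ)ᵀ * BB n κ) (τ a) (τ (a + 1))
    rw [BB_mul hκ, ← Finset.prod_mul_distrib]
    apply Finset.prod_congr rfl
    intro b _
    ring
  obtain ⟨c, hc⟩ := psd_chess (BB n κ) (fun r r' => by
      rw [BB_mul hκ]; exact Finset.prod_nonneg fun _ _ => (Real.exp_pos _).le) D
    (fun p r => Finset.prod_nonneg fun a _ => mul_nonneg (hw _ _) (Real.exp_pos _).le) hn p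
  refine ⟨c, ?_⟩
  rw [h1, h1]
  exact hc

theorem cols_sym {w : (Y → Bool) → ℝ} {e : Bool → (Y → Bool) → (Y → Bool) → ℝ} {κ : Y → ℝ}
    (hw : ∀ ω, 0 ≤ w ω) (he : ∀ c ω ω', 0 ≤ e c ω ω') (hs : ∀ c ω ω', e c ω ω' = e c ω' ω)
    (hn : Even (n + 1)) (p : Fin (n + 1) → Bool) :
    ∃ c, TT n (fun _ => w) e κ (fun _ => p) ≤ TT n (fun _ => w) e κ (fun _ _ => c) := by
  let D : (Fin (n + 1) → Y → Bool) → ℝ := fun r =>
    ∏ b, w (r b) * Real.exp (S κ (r b) (r (b + 1)))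
  have hD : ∀ r, 0 ≤ D r := fun r =>
    Finset.prod_nonneg fun b _ => mul_nonneg (hw _) (Real.exp_pos _).le
  let M : Bool → Matrix (Fin (n + 1) → Y → Bool) (Fin (n + 1) → Y → Bool) ℝ := fun c =>
    Matrix.of fun r r' => √(D r) * √(D r') * ∏ b, e c (r b) (r' b)
  have hM : ∀ c, (M c)ᵀ = M c := by
    intro c
    ext r r'
    rw [Matrix.transpose_apply]
    show √(D r') * √(D r) * ∏ b, e c (r' b) (r b) = √(D r) * √(D r') * ∏ b, e c (r b) (r' b)
    rw [Finset.prod_congr rfl fun b _ => hs c (r' b) (r b)]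
    ring
  have hM0 : ∀ c r r', 0 ≤ M c r r' := fun c r r' =>
    mul_nonneg (mul_nonneg (Real.sqrt_nonneg _) (Real.sqrt_nonneg _))
      (Finset.prod_nonneg fun b _ => he _ _ _)
  have h1 : ∀ p : Fin (n + 1) → Bool,
      TT n (fun _ => w) e κ (fun _ => p) = cyc (fun a => M (p a)) := by
    intro p
    rw [TT_swap]
    unfold cyc
    apply Finset.sum_congr rfl
    intro τ _
    have h2 : ∏ a, M (p a) (τ a) (τ (a + 1)) =
        (∏ a, √(D (τ a))) * (∏ a, √(D (τ (a + 1)))) * ∏ a, ∏ b, e (p a) (τ a b) (τ (a + 1) b) := by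
      rw [← Finset.prod_mul_distrib, ← Finset.prod_mul_distrib]
      rfl
    have h3 : (∏ a, √(D (τ (a + 1)))) = ∏ a, √(D (τ a)) :=
      Equiv.prod_comp (Equiv.addRight (1 : Fin (n + 1))) (fun a => √(D (τ a)))
    rw [h2, h3, ← Finset.prod_mul_distrib]
    rw [Finset.prod_congr rfl fun a _ => Real.mul_self_sqrt (hD (τ a)), ← Finset.prod_mul_distrib]
    apply Finset.prod_congr rfl
    intro a _
    show _ = (∏ b, w (τ a b) * Real.exp (S κ (τ a b) (τ a (b + 1)))) * _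
    rw [← Finset.prod_mul_distrib]
    apply Finset.prod_congr rfl
    intro b _
    ring
  obtain ⟨c, hc⟩ := sym_chess hM hM0 hn p
  refine ⟨c, ?_⟩
  rw [h1, h1]
  exact hc

end Pool.Agent.K9h1.EA
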