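import Pool.Agent.K9h1.EA.Flip
import Pool.Agent.K9h1.EA.Peierls

/-!
# The torus weight as a quadratic form
-/

set_option autoImplicit false

namespace Pool.Agent.K9h1.EA

open Pool.H47EA

variable {Y : Type} [Fintype Y] [DecidableEq Y] {n : ℕ}

abbrev VV (n : ℕ) (Y : Type) : Type := Fin (n + 1) × Fin (n + 1) × Y

/-- couplings of the torus -/
noncomputable def cc (A : Y → Y → ℝ) (β : ℝ) (v w : VV n Y) : ℝ :=
  (if v.1 = w.1 ∧ v.2.1 = w.2.1 then β * A v.2.2 w.2.2 else 0) +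
  (if w = (v.1, v.2.1 + 1, v.2.2) then β else 0) +
  (if w = (v.1, v.2.1 - 1, v.2.2) then β else 0) +
  (if w = (v.1 + 1, v.2.1, v.2.2) then β else 0) +
  (if w = (v.1 - 1, v.2.1, v.2.2) then β else 0)

lemma cc_row (A : Y → Y → ℝ) (β : ℝ) (v : VV n Y) (t : VV n Y → ℝ) :
    ∑ w, cc A β v w * t w = β * (∑ y, A v.2.2 y * t (v.1, v.2.1, y)) +
      β * (t (v.1, v.2.1 + 1, v.2.2) + t (v.1, v.2.1 - 1, v.2.2) + t (v.1 + 1, v.2.1, v.2.2) +
        t (v.1 - 1, v.2.1, v.2.2)) := by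
  have h1 : ∑ w : VV n Y, (if v.1 = w.1 ∧ v.2.1 = w.2.1 then β * A v.2.2 w.2.2 * t w else 0) =
      β * (∑ y, A v.2.2 y * t (v.1, v.2.1, y)) := by
    rw [Fintype.sum_prod_type, Finset.sum_eq_single v.1]
    · rw [Fintype.sum_prod_type, Finset.sum_eq_single v.2.1]
      · rw [Finset.mul_sum]
        apply Finset.sum_congr rfl
        intro y _
        simp only [and_self, if_true]
        ring
      · intro a _ ha
        apply Finset.sum_eq_zero
        intro y _
        rw [if_neg (fun h => ha h.2.symm)]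
      · intro h; exact absurd (Finset.mem_univ _) h
    · intro b _ hb
      apply Finset.sum_eq_zero
      intro y _
      rw [if_neg (fun h => hb h.1.symm)]
    · intro h; exact absurd (Finset.mem_univ _) h
  unfold cc
  simp only [add_mul, Finset.sum_add_distrib, ite_mul, zero_mul, h1, Finset.sum_ite_eq',
    Finset.mem_univ, if_true]
  ring

lemma cc_symm (A : Y → Y → ℝ) (hA : ∀ y y', A y y' = A y' y) (β : ℝ) (v w : VV n Y) :
    cc A β v w = cc A β w v := by
  obtain ⟨b, a, y⟩ := v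
  obtain ⟨b', a', y'⟩ := w
  unfold cc
  simp only [Prod.mk.injEq]
  have e1 : (b = b' ∧ a = a') = (b' = b ∧ a' = a) := by rw [eq_comm (a := b), eq_comm (a := a)]
  have e2 : (b' = b ∧ a' = a + 1 ∧ y' = y) = (b = b' ∧ a = a' - 1 ∧ y = y') := by
    rw [eq_comm (a := b), eq_comm (a := y), eq_sub_iff_add_eq, eq_comm (a := a')]
  have e3 : (b' = b ∧ a' = a - 1 ∧ y' = y) = (b = b' ∧ a = a' + 1 ∧ y = y') := by
    rw [eq_comm (a := b), eq_comm (a := y), eq_sub_iff_add_eq, eq_comm (a := a)]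
  have e4 : (b' = b + 1 ∧ a' = a ∧ y' = y) = (b = b' - 1 ∧ a = a' ∧ y = y') := by
    rw [eq_comm (a := a'), eq_comm (a := y), eq_sub_iff_add_eq, eq_comm (a := b')]
  have e5 : (b' = b - 1 ∧ a' = a ∧ y' = y) = (b = b' + 1 ∧ a = a' ∧ y = y') := by
    rw [eq_comm (a := a'), eq_comm (a := y), eq_sub_iff_add_eq, eq_comm (a := b)]
  simp only [e1, e2, e3, e4, e5, hA y y']
  ring

lemma cc_self (A : Y → Y → ℝ) (hA : ∀ y, A y y = 0) (hn : 1 ≤ n) (β : ℝ) (v : VV n Y) :
    cc A β v v = 0 := by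
  obtain ⟨b, a, y⟩ := v
  have h1 : (1 : Fin (n + 1)) ≠ 0 := by
    intro h
    have := congrArg Fin.val h
    rw [Fin.val_one', Nat.mod_eq_of_lt (by omega)] at this
    simp at this
  have h2 : ∀ c : Fin (n + 1), c ≠ c + 1 := fun c h => h1 (left_eq_add.mp h)
  have h3 : ∀ c : Fin (n + 1), c ≠ c - 1 := fun c h => h2 (c - 1) (by rw [sub_add_cancel]; exact h.symm)
  unfold cc
  simp only [Prod.mk.injEq, hA, mul_zero, ite_self, zero_add]
  rw [if_neg (fun h => h2 _ h.2.1), if_neg (fun h => h3 _ h.2.1), if_neg (fun h => h2 _ h.1),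
    if_neg (fun h => h3 _ h.1)]
  simp

/-- the logarithm of the weight -/
noncomputable def HH (n : ℕ) (h : (Y → Bool) → ℝ) (β : ℝ) (σ : Cf n Y) : ℝ :=
  ∑ b, ∑ a, (h (σ b a) + S (fun _ => β) (σ b a) (σ b (a + 1)) +
    S (fun _ => β) (σ b a) (σ (b + 1) a))

omit [DecidableEq Y] in
lemma W_eq (h : (Y → Bool) → ℝ) (β : ℝ) (σ : Cf n Y) : W n h β σ = Real.exp (HH n h β σ) := by
  unfold W HH
  rw [Real.exp_sum]
  apply Finset.prod_congr rfl
  intro b _
  rw [Real.exp_sum]
  apply Finset.prod_congr rfl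
  intro a _
  rw [Real.exp_add, Real.exp_add]

/-- the transverse energy -/
noncomputable def hT (A : Y → Y → ℝ) (β : ℝ) (ω : Y → Bool) : ℝ :=
  (1 / 2) * ∑ y, ∑ y', β * A y y' * sg (ω y) * sg (ω y')

omit [DecidableEq Y] in
lemma hT_flip (A : Y → Y → ℝ) (β : ℝ) (ω : Y → Bool) : hT A β (fun y => !ω y) = hT A β ω := by
  unfold hT
  congr 1
  apply Finset.sum_congr rfl
  intro y _
  apply Finset.sum_congr rfl
  intro y' _
  rw [sg_not, sg_not]; ring

/-- configurations on the product -/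
def cur (s : VV n Y → Bool) : Cf n Y := fun b a y => s (b, a, y)

lemma HH_eq (A : Y → Y → ℝ) (β : ℝ) (s : VV n Y → Bool) :
    HH n (hT A β) β (cur s) = Q (cc A β) (fun v => sg (s v)) := by
  have h0 : Q (cc A β) (fun v => sg (s v)) =
      (1 / 2) * ∑ v : VV n Y, sg (s v) * ∑ w, cc A β v w * sg (s w) := by
    unfold Q
    congr 1
    apply Finset.sum_congr rfl
    intro v _
    rw [Finset.mul_sum]
    apply Finset.sum_congr rfl
    intro w _
    ring
  rw [h0]
  simp only [cc_row A β _ (fun w => sg (s w))]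
  have hsplit : ∀ v : VV n Y, sg (s v) * (β * (∑ y, A v.2.2 y * sg (s (v.1, v.2.1, y))) +
      β * (sg (s (v.1, v.2.1 + 1, v.2.2)) + sg (s (v.1, v.2.1 - 1, v.2.2)) +
        sg (s (v.1 + 1, v.2.1, v.2.2)) + sg (s (v.1 - 1, v.2.1, v.2.2)))) =
      sg (s v) * (β * (∑ y, A v.2.2 y * sg (s (v.1, v.2.1, y)))) +
      β * (sg (s v) * sg (s (v.1, v.2.1 + 1, v.2.2))) +
      β * (sg (s v) * sg (s (v.1, v.2.1 - 1, v.2.2))) +
      β * (sg (s v) * sg (s (v.1 + 1, v.2.1, v.2.2))) +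
      β * (sg (s v) * sg (s (v.1 - 1, v.2.1, v.2.2))) := by
    intro v; ring
  simp only [hsplit, Finset.sum_add_distrib]
  have ea : ∑ v : VV n Y, β * (sg (s v) * sg (s (v.1, v.2.1 - 1, v.2.2))) =
      ∑ v : VV n Y, β * (sg (s v) * sg (s (v.1, v.2.1 + 1, v.2.2))) := by
    simp only [Fintype.sum_prod_type]
    apply Finset.sum_congr rfl
    intro b _
    rw [← Equiv.sum_comp (Equiv.addRight (1 : Fin (n + 1)))]
    apply Finset.sum_congr rfl
    intro a _
    apply Finset.sum_congr rfl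
    intro y _
    simp only [Equiv.coe_addRight, add_sub_cancel_right]
    ring
  have eb : ∑ v : VV n Y, β * (sg (s v) * sg (s (v.1 - 1, v.2.1, v.2.2))) =
      ∑ v : VV n Y, β * (sg (s v) * sg (s (v.1 + 1, v.2.1, v.2.2))) := by
    simp only [Fintype.sum_prod_type]
    rw [← Equiv.sum_comp (Equiv.addRight (1 : Fin (n + 1)))]
    apply Finset.sum_congr rfl
    intro b _
    apply Finset.sum_congr rfl
    intro a _
    apply Finset.sum_congr rfl
    intro y _
    simp only [Equiv.coe_addRight, add_sub_cancel_right]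
    ring
  rw [ea, eb]
  unfold HH hT S cur
  simp only [Finset.sum_add_distrib]
  have e1 : ∑ x : Fin (n + 1), ∑ x_1 : Fin (n + 1), (1 / 2 : ℝ) * ∑ y, ∑ y', β * A y y' *
      sg (s (x, x_1, y)) * sg (s (x, x_1, y')) =
      (1 / 2) * ∑ v : VV n Y, sg (s v) * (β * (∑ y, A v.2.2 y * sg (s (v.1, v.2.1, y)))) := by
    simp only [Fintype.sum_prod_type, Finset.mul_sum]
    apply Finset.sum_congr rfl
    intro b _
    apply Finset.sum_congr rfl
    intro a _
    apply Finset.sum_congr rfl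
    intro y _
    apply Finset.sum_congr rfl
    intro y' _
    ring
  have e2 : ∑ x : Fin (n + 1), ∑ x_1 : Fin (n + 1), ∑ y, β * sg (s (x, x_1, y)) *
      sg (s (x, x_1 + 1, y)) =
      ∑ v : VV n Y, β * (sg (s v) * sg (s (v.1, v.2.1 + 1, v.2.2))) := by
    simp only [Fintype.sum_prod_type]
    apply Finset.sum_congr rfl
    intro b _
    apply Finset.sum_congr rfl
    intro a _
    apply Finset.sum_congr rfl
    intro y _
    ring
  have e3 : ∑ x : Fin (n + 1), ∑ x_1 : Fin (n + 1), ∑ y, β * sg (s (x, x_1, y)) *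
      sg (s (x + 1, x_1, y)) =
      ∑ v : VV n Y, β * (sg (s v) * sg (s (v.1 + 1, v.2.1, v.2.2))) := by
    simp only [Fintype.sum_prod_type]
    apply Finset.sum_congr rfl
    intro b _
    apply Finset.sum_congr rfl
    intro a _
    apply Finset.sum_congr rfl
    intro y _
    ring
  rw [e1, e2, e3]
  ring

/-- flipping one spin of the torus -/
lemma HH_flip (A : Y → Y → ℝ) (hA : ∀ y y', A y y' = A y' y) (hA0 : ∀ y, A y y = 0) (hn : 1 ≤ n)
    (β : ℝ) (s : VV n Y → Bool) (v : VV n Y) :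
    HH n (hT A β) β (cur s) - HH n (hT A β) β (cur (Function.update s v (!s v))) =
      2 * sg (s v) * (β * ((∑ y, A v.2.2 y * sg (s (v.1, v.2.1, y))) +
      (sg (s (v.1, v.2.1 + 1, v.2.2)) + sg (s (v.1, v.2.1 - 1, v.2.2)) +
        sg (s (v.1 + 1, v.2.1, v.2.2)) + sg (s (v.1 - 1, v.2.1, v.2.2))))) := by
  rw [HH_eq, HH_eq]
  have h1 : (fun w => sg (Function.update s v (!s v) w)) =
      Function.update (fun w => sg (s w)) v (-sg (s v)) := by
    funext w
    by_cases hw : w = v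
    · subst hw; rw [Function.update_self, Function.update_self, sg_not]
    · rw [Function.update_of_ne hw, Function.update_of_ne hw]
  rw [h1]
  have h2 := quad_flip (cc A β) (cc_symm A hA β) (cc_self A hA0 hn β v) (fun w => sg (s w))
  rw [h2, cc_row A β v (fun w => sg (s w))]
  ring

end Pool.Agent.K9h1.EA
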