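import Mathlib

/-!
# A chessboard inequality for traces of products of symmetric matrices
-/

set_option autoImplicit false

namespace Pool.Agent.K9h1.EA

open Matrix

variable {I : Type*} [Fintype I] [DecidableEq I]

/-- the trace of the product of the matrices belonging to a word -/
noncomputable def G {X : Type*} (M : X → Matrix I I ℝ) (l : List X) : ℝ :=
  ((l.map M).prod).trace

variable {X : Type*} {M : X → Matrix I I ℝ}

lemma prod_transpose (hM : ∀ x, (M x)ᵀ = M x) (l : List X) :
    ((l.map M).prod)ᵀ = (l.reverse.map M).prod := by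
  induction l with
  | nil => simp
  | cons a l ih =>
    rw [List.map_cons, List.prod_cons, transpose_mul, ih, hM, List.reverse_cons, List.map_append,
      List.prod_append]
    simp

lemma G_comm (l l' : List X) : G M (l ++ l') = G M (l' ++ l) := by
  unfold G
  rw [List.map_append, List.prod_append, List.map_append, List.prod_append, trace_mul_comm]

lemma cs (A B : Matrix I I ℝ) : (A * B).trace ^ 2 ≤ (A * Aᵀ).trace * (B * Bᵀ).trace := by
  have h1 : (A * B).trace = ∑ p : I × I, A p.1 p.2 * B p.2 p.1 := by
    rw [Fintype.sum_prod_type]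
    simp [Matrix.trace, Matrix.mul_apply]
  have h2 : (A * Aᵀ).trace = ∑ p : I × I, A p.1 p.2 ^ 2 := by
    rw [Fintype.sum_prod_type]
    simp [Matrix.trace, Matrix.mul_apply, pow_two]
  have h3 : (B * Bᵀ).trace = ∑ p : I × I, B p.2 p.1 ^ 2 := by
    rw [Fintype.sum_prod_type, Finset.sum_comm]
    simp [Matrix.trace, Matrix.mul_apply, pow_two]
  rw [h1, h2, h3]
  exact Finset.sum_mul_sq_le_sq_mul_sq _ _ _

lemma G_cs (hM : ∀ x, (M x)ᵀ = M x) (l l' : List X) :
    G M (l ++ l') ^ 2 ≤ G M (l ++ l.reverse) * G M (l' ++ l'.reverse) := by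
  unfold G
  simp only [List.map_append, List.prod_append]
  rw [← prod_transpose hM l, ← prod_transpose hM l']
  exact cs _ _

/-- **chessboard inequality for words** -/
theorem trace_chess [Finite X] (hM : ∀ x, (M x)ᵀ = M x) (hG : ∀ l, 0 ≤ G M l) {k : ℕ}
    (hk : 1 ≤ k) (l : List X) (hl : l.length = 2 * k) :
    ∃ x, G M l ≤ G M (List.replicate (2 * k) x) := by
  classical
  have := Fintype.ofFinite X
  -- a maximiser
  let S : Finset (List.Vector X (2 * k)) := Finset.univ
  have hS : S.Nonempty := ⟨⟨l, hl⟩, Finset.mem_univ _⟩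
  obtain ⟨⟨m, hm⟩, -, hmax⟩ := Finset.exists_max_image S (fun v => G M v.1) hS
  have hmax' : ∀ l' : List X, l'.length = 2 * k → G M l' ≤ G M m := fun l' h =>
    hmax ⟨l', h⟩ (Finset.mem_univ _)
  by_cases h0 : G M m = 0
  · obtain ⟨x, l', rfl⟩ : ∃ x l', l = x :: l' := by
      cases l with
      | nil => simp at hl; omega
      | cons x l' => exact ⟨x, l', rfl⟩
    refine ⟨x, ?_⟩
    exact (hmax' _ hl).trans (h0.le.trans (hG _))
  have hpos : 0 < G M m := lt_of_le_of_ne (hG _) (Ne.symm h0)
  -- if a product of two quantities at most `μ` is at least `μ ^ 2` both are equal to `μ`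
  have key : ∀ a b : List X, a.length = k → b.length = k → G M (a ++ b) = G M m →
      G M (a ++ a.reverse) = G M m ∧ G M (b ++ b.reverse) = G M m := by
    intro a b ha hb hab
    have h1 := G_cs hM a b
    rw [hab] at h1
    have h2 := hmax' (a ++ a.reverse) (by simp [ha]; omega)
    have h3 := hmax' (b ++ b.reverse) (by simp [hb]; omega)
    have h4 := hG (a ++ a.reverse)
    have h5 := hG (b ++ b.reverse)
    constructor
    · apply le_antisymm h2
      by_contra hlt
      push Not at hlt
      nlinarith
    · apply le_antisymm h3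
      by_contra hlt
      push Not at hlt
      nlinarith
  -- growing runs
  have grow : ∀ n : ℕ, ∃ r, (n < r ∨ k ≤ r) ∧ ∃ (x : X) (t : List X),
      t.length + r = 2 * k ∧ G M (t ++ List.replicate r x) = G M m := by
    intro n
    induction n with
    | zero =>
      obtain ⟨x, l', hxl⟩ : ∃ x l', m = x :: l' := by
        cases hmm : m with
        | nil => rw [hmm] at hm; simp at hm; omega
        | cons x l' => exact ⟨x, l', rfl⟩
      refine ⟨1, Or.inl (by omega), x, l', ?_, ?_⟩
      · rw [hxl] at hm; simpa using hm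
      · rw [G_comm, hxl]; rfl
    | succ n ih =>
      obtain ⟨r, hr, x, t, ht, hGt⟩ := ih
      rcases hr with hr | hr
      swap
      · exact ⟨r, Or.inr hr, x, t, ht, hGt⟩
      by_cases hrk : k ≤ r
      · exact ⟨r, Or.inr hrk, x, t, ht, hGt⟩
      push Not at hrk
      have e1 : t = t.take k ++ t.drop k := (List.take_append_drop k t).symm
      have hlen1 : (t.take k).length = k := by rw [List.length_take]; omega
      have hlen2 : (t.drop k).length = k - r := by rw [List.length_drop]; omega
      have h2 : G M (t.take k ++ (t.drop k ++ List.replicate r x)) = G M m := by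
        rw [← List.append_assoc, ← e1, hGt]
      have h3 := (key _ _ hlen1 (by simp [hlen2]; omega) h2).2
      refine ⟨2 * r, Or.inl (by omega), x, (t.drop k).reverse ++ t.drop k, ?_, ?_⟩
      · simp [hlen2]; omega
      · have e2 : t.drop k ++ List.replicate r x ++ (t.drop k ++ List.replicate r x).reverse =
            (t.drop k ++ List.replicate (2 * r) x) ++ (t.drop k).reverse := by
          rw [List.reverse_append, List.reverse_replicate, two_mul, List.replicate_add]
          simp only [List.append_assoc]
        rw [e2, G_comm] at h3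
        rw [← h3, List.append_assoc]
  obtain ⟨r, hr, x, t, ht, hGt⟩ := grow k
  have hrk : k ≤ r := by omega
  refine ⟨x, (hmax' _ hl).trans ?_⟩
  have e1 : t ++ List.replicate r x = (t ++ List.replicate (r - k) x) ++ List.replicate k x := by
    rw [List.append_assoc, ← List.replicate_add]
    congr 2; omega
  rw [e1] at hGt
  have h3 := (key _ _ (by simp; omega) (by simp) hGt).2
  rw [List.reverse_replicate, ← List.replicate_add, ← two_mul] at h3
  exact h3.ge

/-! ### cyclic sums -/

/-- open chains -/
lemma open_chain : ∀ (n : ℕ) (f : Fin n → Matrix I I ℝ) (a b : I),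
    ((List.ofFn f).prod) a b = ∑ ω : Fin (n + 1) → I,
      (if ω 0 = a then 1 else 0) * (if ω (Fin.last n) = b then 1 else 0) *
        ∏ j : Fin n, f j (ω j.castSucc) (ω j.succ) := by
  intro n
  induction n with
  | zero =>
    intro f a b
    rw [List.ofFn_zero, List.prod_nil, Matrix.one_apply,
      ← (Equiv.funUnique (Fin 1) I).symm.sum_comp]
    simp only [Finset.univ_eq_empty, Finset.prod_empty, mul_one]
    by_cases hab : a = b
    · subst hab
      rw [if_pos rfl, Finset.sum_eq_single a]
      · simp
      · intro c _ hc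
        simp [hc]
      · simp
    · rw [if_neg hab]
      symm
      apply Finset.sum_eq_zero
      intro c _
      by_cases hc : c = a
      · subst hc; simp [hab]
      · simp [hc]
  | succ n ih =>
    intro f a b
    have hR : (∑ ω : Fin (n + 2) → I,
        (if ω 0 = a then (1 : ℝ) else 0) * (if ω (Fin.last (n + 1)) = b then 1 else 0) *
          ∏ j : Fin (n + 1), f j (ω j.castSucc) (ω j.succ)) =
        ∑ ω : Fin (n + 1) → I, (if ω (Fin.last n) = b then 1 else 0) *
          (f 0 a (ω 0) * ∏ j : Fin n, f j.succ (ω j.castSucc) (ω j.succ)) := by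
      have e0 : ∀ (c : I) (ω : Fin (n + 1) → I),
          ((if (Fin.cons c ω : Fin (n + 2) → I) 0 = a then (1 : ℝ) else 0) *
            (if (Fin.cons c ω : Fin (n + 2) → I) (Fin.last (n + 1)) = b then 1 else 0) *
          ∏ j : Fin (n + 1), f j ((Fin.cons c ω : Fin (n + 2) → I) j.castSucc)
            ((Fin.cons c ω : Fin (n + 2) → I) j.succ)) =
          (if c = a then (1 : ℝ) else 0) * ((if ω (Fin.last n) = b then 1 else 0) *
            (f 0 c (ω 0) * ∏ j : Fin n, f j.succ (ω j.castSucc) (ω j.succ))) := by
        intro c ω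
        have e2 : (Fin.cons c ω : Fin (n + 2) → I) (Fin.last (n + 1)) = ω (Fin.last n) := by
          rw [← Fin.succ_last, Fin.cons_succ]
        have e3 : ∀ j : Fin n, (Fin.cons c ω : Fin (n + 2) → I) j.succ.castSucc =
            ω j.castSucc := by
          intro j
          rw [← Fin.succ_castSucc, Fin.cons_succ]
        rw [e2, Fin.cons_zero, Fin.prod_univ_succ]
        simp only [Fin.castSucc_zero, Fin.cons_zero, Fin.cons_succ, e3]
        ring
      have e1 : (∑ ω : Fin (n + 2) → I,
          (if ω 0 = a then (1 : ℝ) else 0) * (if ω (Fin.last (n + 1)) = b then 1 else 0) *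
          ∏ j : Fin (n + 1), f j (ω j.castSucc) (ω j.succ)) =
          ∑ c : I, ∑ ω : Fin (n + 1) → I,
          ((if (Fin.cons c ω : Fin (n + 2) → I) 0 = a then (1 : ℝ) else 0) *
            (if (Fin.cons c ω : Fin (n + 2) → I) (Fin.last (n + 1)) = b then 1 else 0) *
          ∏ j : Fin (n + 1), f j ((Fin.cons c ω : Fin (n + 2) → I) j.castSucc)
            ((Fin.cons c ω : Fin (n + 2) → I) j.succ)) := by
        rw [← Fintype.sum_prod_type', ← (Fin.consEquiv (fun _ : Fin (n + 2) => I)).sum_comp]
        rfl
      rw [e1]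
      simp only [e0]
      rw [Finset.sum_eq_single a]
      · simp
      · intro c _ hc
        simp [hc]
      · intro h; exact absurd (Finset.mem_univ _) h
    rw [hR, List.ofFn_succ, List.prod_cons, Matrix.mul_apply]
    simp only [ih, Finset.mul_sum]
    rw [Finset.sum_comm]
    apply Finset.sum_congr rfl
    intro ω _
    rw [Finset.sum_eq_single (ω 0)]
    · simp
    · intro c _ hc
      rw [if_neg (Ne.symm hc)]
      ring
    · intro h; exact absurd (Finset.mem_univ _) h

/-- closed chains -/
theorem closed_chain (n : ℕ) (f : Fin (n + 1) → Matrix I I ℝ) :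
    ((List.ofFn f).prod).trace = ∑ ω : Fin (n + 1) → I, ∏ j : Fin (n + 1), f j (ω j) (ω (j + 1)) := by
  rw [List.ofFn_succ', List.concat_eq_append, List.prod_append, List.prod_singleton]
  unfold Matrix.trace
  simp only [Matrix.diag_apply, Matrix.mul_apply, open_chain, Finset.sum_mul]
  have h1 : ∀ ω : Fin (n + 1) → I, (∏ j : Fin (n + 1), f j (ω j) (ω (j + 1))) =
      (∏ j : Fin n, f j.castSucc (ω j.castSucc) (ω j.succ)) * f (Fin.last n) (ω (Fin.last n)) (ω 0) := by
    intro ω
    rw [Fin.prod_univ_castSucc]
    congr 1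
    · apply Finset.prod_congr rfl
      intro j _
      rw [Fin.coeSucc_eq_succ]
    · rw [Fin.last_add_one]
  simp only [h1]
  have h2 : ∀ a : I, (∑ b : I, ∑ ω : Fin (n + 1) → I,
      ((if ω 0 = a then (1 : ℝ) else 0) * (if ω (Fin.last n) = b then 1 else 0) *
        ∏ j : Fin n, f j.castSucc (ω j.castSucc) (ω j.succ)) * f (Fin.last n) b a) =
      ∑ ω : Fin (n + 1) → I, (if ω 0 = a then (1 : ℝ) else 0) *
        ((∏ j : Fin n, f j.castSucc (ω j.castSucc) (ω j.succ)) *
          f (Fin.last n) (ω (Fin.last n)) a) := by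
    intro a
    rw [Finset.sum_comm]
    apply Finset.sum_congr rfl
    intro ω _
    rw [Finset.sum_eq_single (ω (Fin.last n))]
    · rw [if_pos rfl]; ring
    · intro b _ hb
      rw [if_neg (Ne.symm hb)]; ring
    · intro h; exact absurd (Finset.mem_univ _) h
  simp only [h2]
  rw [Finset.sum_comm]
  apply Finset.sum_congr rfl
  intro ω _
  rw [Finset.sum_eq_single (ω 0)]
  · simp
  · intro a _ ha
    rw [if_neg (Ne.symm ha)]; ring
  · intro h; exact absurd (Finset.mem_univ _) h

/-- the cyclic sum -/
noncomputable def cyc {n : ℕ} (f : Fin (n + 1) → Matrix I I ℝ) : ℝ :=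
  ∑ ω : Fin (n + 1) → I, ∏ j : Fin (n + 1), f j (ω j) (ω (j + 1))

lemma G_ofFn {n : ℕ} (s : Fin (n + 1) → X) :
    G M (List.ofFn s) = cyc (fun j => M (s j)) := by
  unfold G cyc
  rw [List.map_ofFn, ← closed_chain]
  rfl

lemma G_nonneg (h : ∀ x i j, 0 ≤ M x i j) (l : List X) : 0 ≤ G M l := by
  have h1 : ∀ (l : List X) (i j : I), 0 ≤ ((l.map M).prod) i j := by
    intro l
    induction l with
    | nil =>
      intro i j
      rw [List.map_nil, List.prod_nil, Matrix.one_apply]
      split_ifs <;> norm_num
    | cons a l ih =>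
      intro i j
      rw [List.map_cons, List.prod_cons, Matrix.mul_apply]
      exact Finset.sum_nonneg fun c _ => mul_nonneg (h a i c) (ih c j)
  unfold G
  exact Finset.sum_nonneg fun i _ => h1 l i i

/-- **chessboard inequality, symmetric matrices with nonnegative entries** -/
theorem sym_chess [Finite X] (hM : ∀ x, (M x)ᵀ = M x) (h : ∀ x i j, 0 ≤ M x i j) {n : ℕ}
    (hn : Even (n + 1)) (s : Fin (n + 1) → X) :
    ∃ x, cyc (fun j => M (s j)) ≤ cyc (fun _ : Fin (n + 1) => M x) := by
  obtain ⟨k, hk⟩ := hn
  obtain ⟨x, hx⟩ := trace_chess hM (G_nonneg h) (k := k) (by omega) (List.ofFn s) (by simp; omega)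
  refine ⟨x, ?_⟩
  rw [G_ofFn] at hx
  refine hx.trans ?_
  have : List.replicate (2 * k) x = List.ofFn (fun _ : Fin (n + 1) => x) := by
    rw [List.ofFn_const]; congr 1; omega
  rw [this, G_ofFn]

/-- **chessboard inequality, positive definite nearest neighbour interaction** -/
theorem psd_chess [Finite X] {C : Type*} [Fintype C] [DecidableEq C] (B : Matrix C I ℝ)
    (hB : ∀ i j, 0 ≤ (Bᵀ * B) i j) (D : X → I → ℝ) (hD : ∀ x i, 0 ≤ D x i) {n : ℕ}
    (hn : Even (n + 1)) (s : Fin (n + 1) → X) :
    ∃ x, cyc (fun j => Matrix.of fun a b => D (s j) a * (Bᵀ * B) a b) ≤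
      cyc (fun _ : Fin (n + 1) => Matrix.of fun a b => D x a * (Bᵀ * B) a b) := by
  let N : X → Matrix C C ℝ := fun x => B * Matrix.diagonal (D x) * Bᵀ
  let M' : X → Matrix I I ℝ := fun x => Matrix.of fun a b => D x a * (Bᵀ * B) a b
  have hM' : ∀ x, M' x = Matrix.diagonal (D x) * (Bᵀ * B) := by
    intro x
    ext a b
    rw [Matrix.diagonal_mul]
    rfl
  have hN : ∀ x, (N x)ᵀ = N x := by
    intro x
    show (B * Matrix.diagonal (D x) * Bᵀ)ᵀ = _
    rw [transpose_mul, transpose_transpose, transpose_mul, diagonal_transpose, ← Matrix.mul_assoc]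
  have hcomm : ∀ l : List X, B * (l.map M').prod = (l.map N).prod * B := by
    intro l
    induction l with
    | nil => simp
    | cons a l ih =>
      rw [List.map_cons, List.prod_cons, List.map_cons, List.prod_cons, hM']
      calc B * (Matrix.diagonal (D a) * (Bᵀ * B) * (List.map M' l).prod)
          = B * Matrix.diagonal (D a) * Bᵀ * (B * (List.map M' l).prod) := by
            simp only [Matrix.mul_assoc]
        _ = _ := by rw [ih]; simp only [N, Matrix.mul_assoc]
  have hGG : ∀ l : List X, l ≠ [] → G M' l = G N l := by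
    intro l hl
    cases l with
    | nil => exact absurd rfl hl
    | cons a l =>
      unfold G
      rw [List.map_cons, List.prod_cons, List.map_cons, List.prod_cons, hM']
      calc (Matrix.diagonal (D a) * (Bᵀ * B) * (List.map M' l).prod).trace
          = ((Matrix.diagonal (D a) * Bᵀ) * (B * (List.map M' l).prod)).trace := by
            simp only [Matrix.mul_assoc]
        _ = ((Matrix.diagonal (D a) * Bᵀ * (List.map N l).prod) * B).trace := by
            rw [hcomm]; simp only [Matrix.mul_assoc]
        _ = (B * (Matrix.diagonal (D a) * Bᵀ * (List.map N l).prod)).trace := trace_mul_comm _ _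
        _ = _ := by simp only [N, Matrix.mul_assoc]
  have hpos : ∀ l : List X, 0 ≤ G N l := by
    intro l
    cases hl : l with
    | nil =>
      unfold G
      simp
    | cons a l' =>
      rw [← hGG _ (by simp)]
      exact G_nonneg (M := M') (fun x i j => mul_nonneg (hD x i) (hB i j)) _
  obtain ⟨k, hk⟩ := hn
  obtain ⟨x, hx⟩ := trace_chess hN hpos (k := k) (by omega) (List.ofFn s) (by simp; omega)
  refine ⟨x, ?_⟩
  have e1 : cyc (fun j => Matrix.of fun a b => D (s j) a * (Bᵀ * B) a b) = G N (List.ofFn s) := by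
    rw [← hGG _ (by
      intro h
      have := congrArg List.length h
      simp at this)]
    exact (G_ofFn (M := M') s).symm
  have e2 : cyc (fun _ : Fin (n + 1) => Matrix.of fun a b => D x a * (Bᵀ * B) a b) =
      G N (List.replicate (2 * k) x) := by
    rw [← hGG _ (by
      intro h
      have := congrArg List.length h
      simp at this; omega)]
    have : List.replicate (2 * k) x = List.ofFn (fun _ : Fin (n + 1) => x) := by
      rw [List.ofFn_const]; congr 1; omega
    rw [this]
    exact (G_ofFn (M := M') (fun _ => x)).symm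
  rw [e1, e2]
  exact hx

end Pool.Agent.K9h1.EA
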